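import Pool.Agent.Lib.MP_ef18bd_co.R80.Idx4
import Pool.Agent.Lib.MP_ef18bd_co.R80.Wj
import Pool.Agent.Lib.MP_ef18bd_co.P.Fir

/-!
# The components with two lists of values, triangle-free
-/

namespace EF18.P80

/-- the components and their values -/
noncomputable def CAGt : List CPc := [((4, 0x13110c1917061405030e0b09), [0, 0, 0, 8, 16]), ((4, 0x13110a191704011403010e09), [0, 0, 0, 0]), ((6,
0x19130c17100b251f06231c05201b03140f09), [0, 0, 0, 0, 8, 16, 24]), ((6,
0x19120d16110b251e07221d05211b03150f09), [0, 0, 0, 0, 0, 2, 4, 6])]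

/-- the components and their values -/
noncomputable def CBGt : List CPc := [((4, 0x13110c1917061405030e0b09), [0, 0, 0, 0, 0]), ((4, 0x13110a191704011403010e09), [0, 0, 0, 10]), ((6,
0x19130c17100b251f06231c05201b03140f09), [0, 0, 0, 0, 0, 0, 0]), ((6,
0x19120d16110b251e07221d05211b03150f09), [0, 0, 0, 0, 0, 0, 0, 0])]

/-- the components and their link ports -/
noncomputable def MLGt : List MPc := [((4, 0x13110c1917061405030e0b09), [0, 1, 3, 4, 7, 8, 10, 11]), ((4, 0x13110a191704011403010e09), [0, 3, 7,
8, 10, 11]), ((6, 0x19130c17100b251f06231c05201b03140f09), [0, 1, 3, 4, 6, 8, 10, 11, 12, 14, 16, 17]), ((6,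
0x19120d16110b251e07221d05211b03150f09), [0, 1, 2, 3, 4, 5, 6, 7, 9, 11, 12, 13, 15, 17])]

/-- the closed pieces -/
noncomputable def PLGt : List (ℕ × ℕ) := []

theorem vokAGt : vok CAGt := by decide +kernel

theorem vokBGt : vok CBGt := by decide +kernel

theorem mclAGt : MLGt = mcl CAGt := by decide +kernel

theorem mclBGt : MLGt = mcl CBGt := by decide +kernel

theorem lenGt : CAGt.length = 4 := by decide +kernel

theorem mkoGt : MLGt.all mkok = true := by decide +kernel

theorem wfpGt : PLGt.all wfp = true := by decide +kernel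

theorem bdGt : (PLGt.all fun q => Nat.ble q.1 256) = true := by decide +kernel

/-- the start -/
noncomputable def QGtn : List (ℕ × ℕ) := []

theorem cGtn : Dj CAGt CBGt true PLGt (dnL QGtn) := dj_nil _ _ _ _

end EF18.P80
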