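import Pool.Agent.Lib.MP_ef18bd_co.R80T.Base
import Pool.Agent.Lib.MP_ef18bd_co.R80T.P0x0
import Pool.Agent.Lib.MP_ef18bd_co.R80T.P0x1
import Pool.Agent.Lib.MP_ef18bd_co.R80T.P0x2
import Pool.Agent.Lib.MP_ef18bd_co.R80T.P0x3
import Pool.Agent.Lib.MP_ef18bd_co.R80T.P0x4
import Pool.Agent.Lib.MP_ef18bd_co.R80T.P0x5
import Pool.Agent.Lib.MP_ef18bd_co.R80T.P0x6
import Pool.Agent.Lib.MP_ef18bd_co.R80T.P0r0
import Pool.Agent.Lib.MP_ef18bd_co.R80T.P0k0

/-!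
# Phase 0
-/

namespace EF18.P80

theorem aGt0 : ∀ i < 4000, Val (stD (dnL QGtn) SGt0) (prc BGt0 i) := by
  have j0 := ents_zeroF QGtn SGt0 BGt0
  have h0 := j0
  have h1 := wGt0_0_0 h0
  have h2 := wGt0_0_1 h1
  have h3 := wGt0_0_2 h2
  have h4 := wGt0_0_3 h3
  have h5 := wGt0_0_4 h4
  have h6 := wGt0_0_5 h5
  have h7 := wGt0_0_6 h6
  have h8 := wGt0_0_7 h7
  have h9 := wGt0_0_8 h8
  have h10 := wGt0_0_9 h9
  have h11 := wGt0_0_10 h10
  have h12 := wGt0_0_11 h11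
  have h13 := wGt0_0_12 h12
  have h14 := wGt0_0_13 h13
  have h15 := wGt0_0_14 h14
  have h16 := wGt0_0_15 h15
  have h17 := wGt0_0_16 h16
  have h18 := wGt0_0_17 h17
  have h19 := wGt0_0_18 h18
  have h20 := wGt0_0_19 h19
  have h21 := wGt0_0_20 h20
  have h22 := wGt0_0_21 h21
  have h23 := wGt0_0_22 h22
  have h24 := wGt0_0_23 h23
  have h25 := wGt0_1_0 h24
  have h26 := wGt0_1_1 h25
  have h27 := wGt0_1_2 h26
  have h28 := wGt0_1_3 h27
  have h29 := wGt0_1_4 h28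
  have h30 := wGt0_1_5 h29
  have h31 := wGt0_1_6 h30
  have h32 := wGt0_1_7 h31
  have h33 := wGt0_1_8 h32
  have h34 := wGt0_1_9 h33
  have h35 := wGt0_1_10 h34
  have h36 := wGt0_1_11 h35
  have h37 := wGt0_1_12 h36
  have h38 := wGt0_1_13 h37
  have h39 := wGt0_1_14 h38
  have h40 := wGt0_1_15 h39
  have h41 := wGt0_1_16 h40
  have h42 := wGt0_1_17 h41
  have h43 := wGt0_1_18 h42
  have h44 := wGt0_1_19 h43
  have h45 := wGt0_1_20 h44
  have h46 := wGt0_1_21 h45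
  have h47 := wGt0_1_22 h46
  have h48 := wGt0_1_23 h47
  have h49 := wGt0_1_24 h48
  have h50 := wGt0_1_25 h49
  have h51 := wGt0_1_26 h50
  have h52 := wGt0_1_27 h51
  have h53 := wGt0_1_28 h52
  have h54 := wGt0_2_0 h53
  have h55 := wGt0_2_1 h54
  have h56 := wGt0_2_2 h55
  have h57 := wGt0_2_3 h56
  have h58 := wGt0_2_4 h57
  have h59 := wGt0_2_5 h58
  have h60 := wGt0_2_6 h59
  have h61 := wGt0_2_7 h60
  have h62 := wGt0_2_8 h61
  have h63 := wGt0_2_9 h62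
  have h64 := wGt0_2_10 h63
  have h65 := wGt0_2_11 h64
  have h66 := wGt0_2_12 h65
  have h67 := wGt0_2_13 h66
  have h68 := wGt0_2_14 h67
  have h69 := wGt0_2_15 h68
  have h70 := wGt0_2_16 h69
  have h71 := wGt0_2_17 h70
  have h72 := wGt0_2_18 h71
  have h73 := wGt0_2_19 h72
  have h74 := wGt0_2_20 h73
  have h75 := wGt0_2_21 h74
  have h76 := wGt0_2_22 h75
  have h77 := wGt0_2_23 h76
  have h78 := wGt0_2_24 h77
  have h79 := wGt0_2_25 h78
  have h80 := wGt0_2_26 h79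
  have h81 := wGt0_2_27 h80
  have h82 := wGt0_2_28 h81
  have h83 := wGt0_2_29 h82
  have h84 := wGt0_3_0 h83
  have h85 := wGt0_3_1 h84
  have h86 := wGt0_3_2 h85
  have h87 := wGt0_3_3 h86
  have h88 := wGt0_3_4 h87
  have h89 := wGt0_3_5 h88
  have h90 := wGt0_3_6 h89
  have h91 := wGt0_3_7 h90
  have h92 := wGt0_3_8 h91
  have h93 := wGt0_3_9 h92
  have h94 := wGt0_3_10 h93
  have h95 := wGt0_3_11 h94
  have h96 := wGt0_3_12 h95
  have h97 := wGt0_3_13 h96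
  have h98 := wGt0_3_14 h97
  have h99 := wGt0_3_15 h98
  have h100 := wGt0_3_16 h99
  have h101 := wGt0_3_17 h100
  have h102 := wGt0_3_18 h101
  have h103 := wGt0_3_19 h102
  have h104 := wGt0_3_20 h103
  have h105 := wGt0_3_21 h104
  have h106 := wGt0_3_22 h105
  have h107 := wGt0_3_23 h106
  have h108 := wGt0_3_24 h107
  have h109 := wGt0_3_25 h108
  have h110 := wGt0_3_26 h109
  have h111 := wGt0_3_27 h110
  have h112 := wGt0_3_28 h111
  have h113 := wGt0_3_29 h112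
  have h114 := wGt0_3_30 h113
  have h115 := wGt0_3_31 h114
  have h116 := wGt0_4_0 h115
  have h117 := wGt0_4_1 h116
  have h118 := wGt0_4_2 h117
  have h119 := wGt0_4_3 h118
  have h120 := wGt0_4_4 h119
  have h121 := wGt0_4_5 h120
  have h122 := wGt0_4_6 h121
  have h123 := wGt0_4_7 h122
  have h124 := wGt0_4_8 h123
  have h125 := wGt0_4_9 h124
  have h126 := wGt0_4_10 h125
  have h127 := wGt0_4_11 h126
  have h128 := wGt0_4_12 h127
  have h129 := wGt0_4_13 h128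
  have h130 := wGt0_4_14 h129
  have h131 := wGt0_4_15 h130
  have h132 := wGt0_4_16 h131
  have h133 := wGt0_4_17 h132
  have h134 := wGt0_4_18 h133
  have h135 := wGt0_4_19 h134
  have h136 := wGt0_4_20 h135
  have h137 := wGt0_4_21 h136
  have h138 := wGt0_4_22 h137
  have h139 := wGt0_4_23 h138
  have h140 := wGt0_5_0 h139
  have h141 := wGt0_5_1 h140
  have h142 := wGt0_5_2 h141
  have h143 := wGt0_5_3 h142
  have h144 := wGt0_5_4 h143
  have h145 := wGt0_5_5 h144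
  have h146 := wGt0_5_6 h145
  have h147 := wGt0_5_7 h146
  have h148 := wGt0_5_8 h147
  have h149 := wGt0_5_9 h148
  have h150 := wGt0_5_10 h149
  have h151 := wGt0_5_11 h150
  have h152 := wGt0_5_12 h151
  have h153 := wGt0_5_13 h152
  have h154 := wGt0_5_14 h153
  have h155 := wGt0_5_15 h154
  have h156 := wGt0_5_16 h155
  have h157 := wGt0_5_17 h156
  have h158 := wGt0_5_18 h157
  have h159 := wGt0_5_19 h158
  have h160 := wGt0_5_20 h159
  have h161 := wGt0_6_0 h160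
  have h162 := wGt0_6_1 h161
  have h163 := wGt0_6_2 h162
  exact h163

theorem bGt0 : RtI (okB 2 true) (stD (dnL QGtn) SGt0) RBGt0 1460 := by
  have h0 := rtI_zero (okB 2 true) (stD (dnL QGtn) SGt0) RBGt0
  have h1 := uGt0 aGt0 h0 oGt0_0_0 (show 0 + 25 = 25 from rfl)
  have h2 := uGt0 aGt0 h1 oGt0_0_1 (show 25 + 25 = 50 from rfl)
  have h3 := uGt0 aGt0 h2 oGt0_0_2 (show 50 + 25 = 75 from rfl)
  have h4 := uGt0 aGt0 h3 oGt0_0_3 (show 75 + 25 = 100 from rfl)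
  have h5 := uGt0 aGt0 h4 oGt0_0_4 (show 100 + 25 = 125 from rfl)
  have h6 := uGt0 aGt0 h5 oGt0_0_5 (show 125 + 25 = 150 from rfl)
  have h7 := uGt0 aGt0 h6 oGt0_0_6 (show 150 + 25 = 175 from rfl)
  have h8 := uGt0 aGt0 h7 oGt0_0_7 (show 175 + 25 = 200 from rfl)
  have h9 := uGt0 aGt0 h8 oGt0_0_8 (show 200 + 25 = 225 from rfl)
  have h10 := uGt0 aGt0 h9 oGt0_0_9 (show 225 + 25 = 250 from rfl)
  have h11 := uGt0 aGt0 h10 oGt0_0_10 (show 250 + 25 = 275 from rfl)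
  have h12 := uGt0 aGt0 h11 oGt0_0_11 (show 275 + 25 = 300 from rfl)
  have h13 := uGt0 aGt0 h12 oGt0_0_12 (show 300 + 25 = 325 from rfl)
  have h14 := uGt0 aGt0 h13 oGt0_0_13 (show 325 + 25 = 350 from rfl)
  have h15 := uGt0 aGt0 h14 oGt0_0_14 (show 350 + 25 = 375 from rfl)
  have h16 := uGt0 aGt0 h15 oGt0_0_15 (show 375 + 25 = 400 from rfl)
  have h17 := uGt0 aGt0 h16 oGt0_0_16 (show 400 + 25 = 425 from rfl)
  have h18 := uGt0 aGt0 h17 oGt0_0_17 (show 425 + 25 = 450 from rfl)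
  have h19 := uGt0 aGt0 h18 oGt0_0_18 (show 450 + 25 = 475 from rfl)
  have h20 := uGt0 aGt0 h19 oGt0_0_19 (show 475 + 25 = 500 from rfl)
  have h21 := uGt0 aGt0 h20 oGt0_0_20 (show 500 + 25 = 525 from rfl)
  have h22 := uGt0 aGt0 h21 oGt0_0_21 (show 525 + 25 = 550 from rfl)
  have h23 := uGt0 aGt0 h22 oGt0_0_22 (show 550 + 25 = 575 from rfl)
  have h24 := uGt0 aGt0 h23 oGt0_0_23 (show 575 + 25 = 600 from rfl)
  have h25 := uGt0 aGt0 h24 oGt0_0_24 (show 600 + 25 = 625 from rfl)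
  have h26 := uGt0 aGt0 h25 oGt0_0_25 (show 625 + 25 = 650 from rfl)
  have h27 := uGt0 aGt0 h26 oGt0_0_26 (show 650 + 25 = 675 from rfl)
  have h28 := uGt0 aGt0 h27 oGt0_0_27 (show 675 + 25 = 700 from rfl)
  have h29 := uGt0 aGt0 h28 oGt0_0_28 (show 700 + 25 = 725 from rfl)
  have h30 := uGt0 aGt0 h29 oGt0_0_29 (show 725 + 25 = 750 from rfl)
  have h31 := uGt0 aGt0 h30 oGt0_0_30 (show 750 + 25 = 775 from rfl)
  have h32 := uGt0 aGt0 h31 oGt0_0_31 (show 775 + 25 = 800 from rfl)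
  have h33 := uGt0 aGt0 h32 oGt0_0_32 (show 800 + 25 = 825 from rfl)
  have h34 := uGt0 aGt0 h33 oGt0_0_33 (show 825 + 25 = 850 from rfl)
  have h35 := uGt0 aGt0 h34 oGt0_0_34 (show 850 + 25 = 875 from rfl)
  have h36 := uGt0 aGt0 h35 oGt0_0_35 (show 875 + 25 = 900 from rfl)
  have h37 := uGt0 aGt0 h36 oGt0_0_36 (show 900 + 25 = 925 from rfl)
  have h38 := uGt0 aGt0 h37 oGt0_0_37 (show 925 + 25 = 950 from rfl)
  have h39 := uGt0 aGt0 h38 oGt0_0_38 (show 950 + 25 = 975 from rfl)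
  have h40 := uGt0 aGt0 h39 oGt0_0_39 (show 975 + 25 = 1000 from rfl)
  have h41 := uGt0 aGt0 h40 oGt0_0_40 (show 1000 + 25 = 1025 from rfl)
  have h42 := uGt0 aGt0 h41 oGt0_0_41 (show 1025 + 25 = 1050 from rfl)
  have h43 := uGt0 aGt0 h42 oGt0_0_42 (show 1050 + 25 = 1075 from rfl)
  have h44 := uGt0 aGt0 h43 oGt0_0_43 (show 1075 + 25 = 1100 from rfl)
  have h45 := uGt0 aGt0 h44 oGt0_0_44 (show 1100 + 25 = 1125 from rfl)
  have h46 := uGt0 aGt0 h45 oGt0_0_45 (show 1125 + 25 = 1150 from rfl)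
  have h47 := uGt0 aGt0 h46 oGt0_0_46 (show 1150 + 25 = 1175 from rfl)
  have h48 := uGt0 aGt0 h47 oGt0_0_47 (show 1175 + 25 = 1200 from rfl)
  have h49 := uGt0 aGt0 h48 oGt0_0_48 (show 1200 + 25 = 1225 from rfl)
  have h50 := uGt0 aGt0 h49 oGt0_0_49 (show 1225 + 25 = 1250 from rfl)
  have h51 := uGt0 aGt0 h50 oGt0_0_50 (show 1250 + 25 = 1275 from rfl)
  have h52 := uGt0 aGt0 h51 oGt0_0_51 (show 1275 + 25 = 1300 from rfl)
  have h53 := uGt0 aGt0 h52 oGt0_0_52 (show 1300 + 25 = 1325 from rfl)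
  have h54 := uGt0 aGt0 h53 oGt0_0_53 (show 1325 + 25 = 1350 from rfl)
  have h55 := uGt0 aGt0 h54 oGt0_0_54 (show 1350 + 25 = 1375 from rfl)
  have h56 := uGt0 aGt0 h55 oGt0_0_55 (show 1375 + 25 = 1400 from rfl)
  have h57 := uGt0 aGt0 h56 oGt0_0_56 (show 1400 + 25 = 1425 from rfl)
  have h58 := uGt0 aGt0 h57 oGt0_0_57 (show 1425 + 25 = 1450 from rfl)
  have h59 := uGt0 aGt0 h58 oGt0_0_58 (show 1450 + 10 = 1460 from rfl)
  exact h59

theorem tGt0 : (TGt0.all okJ) = true := by decide +kernel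

theorem pGt0_0 : CkP QGtn (4, 0x13110c1917061405030e0b09)
    [4, 3, 2, 1, 0] 16 := by
  have h0 := ckP_zero QGtn (4, 0x13110c1917061405030e0b09)
    [4, 3, 2, 1, 0]
  have h1 := ckP_step (k := 16) h0 kGt0_0c0 rfl
  exact h1

theorem pGt0_1 : CkP QGtn (4, 0x13110a191704011403010e09)
    [3, 2, 1, 0] 8 := by
  have h0 := ckP_zero QGtn (4, 0x13110a191704011403010e09)
    [3, 2, 1, 0]
  have h1 := ckP_step (k := 8) h0 kGt0_1c0 rfl
  exact h1

theorem pGt0_2 : CkP QGtn (6, 0x19130c17100b251f06231c05201b03140f09)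
    [6, 5, 4, 3, 2, 1, 0] 64 := by
  have h0 := ckP_zero QGtn (6, 0x19130c17100b251f06231c05201b03140f09)
    [6, 5, 4, 3, 2, 1, 0]
  have h1 := ckP_step (k := 64) h0 kGt0_2c0 rfl
  exact h1

theorem pGt0_3 : CkP QGtn (6, 0x19120d16110b251e07221d05211b03150f09)
    [7, 6, 5, 4, 3, 2, 1, 0] 128 := by
  have h0 := ckP_zero QGtn (6, 0x19120d16110b251e07221d05211b03150f09)
    [7, 6, 5, 4, 3, 2, 1, 0]
  have h1 := ckP_step (k := 128) h0 kGt0_3c0 rfl
  exact h1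

theorem kGt0 : PpI QGtn 1 TGt0 CAGt CBGt 4 := by
  have h0 := ppI_zero QGtn 1 TGt0 CAGt CBGt
  have h1 := ppI_stepV (k' := 1) (q := (4, 0x13110c1917061405030e0b09)) h0 rfl kGt0_0r pGt0_0 kGt0_0m rfl
  have h2 := ppI_stepV (k' := 2) (q := (4, 0x13110a191704011403010e09)) h1 rfl kGt0_1r pGt0_1 kGt0_1m rfl
  have h3 := ppI_stepV (k' := 3) (q := (6, 0x19130c17100b251f06231c05201b03140f09)) h2 rfl kGt0_2r pGt0_2 kGt0_2m rfl
  have h4 := ppI_stepV (k' := 4) (q := (6, 0x19120d16110b251e07221d05211b03150f09)) h3 rfl kGt0_3r pGt0_3 kGt0_3m rfl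
  exact h4

theorem zGt0 : (!false || allK QGtn (fun _ => true) (nzq CBGt)
  0) = true := by decide +kernel

theorem mGt0A : (Nat.ble 2 2 || memI QGtn 0 1 257) = true := by decide +kernel

theorem mGt0B : (Nat.ble 1 2 || memI QGtn 0 1 1) = true := by decide +kernel

/-- **the phase 0** -/
theorem cGt0 : Dj CAGt CBGt true PLGt (dnL QGt0) :=
  Dj.rawP vokAGt vokBGt mclAGt mclBGt mkoGt wfpGt cGtn mGt0A mGt0B (by norm_num) tGt0 kGt0 lenGt zGt0 bGt0

end EF18.P80
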