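import Pool.Agent.Lib.MP_ef18bd_co.R80T.P1

/-!
# Phase 1: closed patterns
-/

namespace EF18.P80

set_option linter.defProp false

def jGt1_0 : j0F QGt0 BGt1 41 0
  0x16cc0016c80016000016c00016bc0016b80016b40015fc0016ac0016a80016a40016a000169400169000168c00168800168400168000167c00167800167400167000166c00166800166400165c0016540015e00016480015d800163c00162c0016240016200015cc0015c80015c40016100015c00015bc0015b80 = true := by
  decide +kernel

end EF18.P80
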