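import Pool.Agent.Lib.MP_ef18bd_co.R80T.C0
import Pool.Agent.Lib.MP_ef18bd_co.R80T.P1x0
import Pool.Agent.Lib.MP_ef18bd_co.R80T.P1x1
import Pool.Agent.Lib.MP_ef18bd_co.R80T.P1x2
import Pool.Agent.Lib.MP_ef18bd_co.R80T.P1x3
import Pool.Agent.Lib.MP_ef18bd_co.R80T.P1x4
import Pool.Agent.Lib.MP_ef18bd_co.R80T.P1x5
import Pool.Agent.Lib.MP_ef18bd_co.R80T.P1j0
import Pool.Agent.Lib.MP_ef18bd_co.R80T.P1r0
import Pool.Agent.Lib.MP_ef18bd_co.R80T.P1k0

/-!
# Phase 1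
-/

namespace EF18.P80

theorem aGt1 : ∀ i < 4000, Val (stD (dnL QGt0) SGt1) (prc BGt1 i) := by
  have j0 := ents_zeroF QGt0 SGt1 BGt1
  have j1 := ents_dnF (k := 41) j0 jGt1_0 rfl
  have h0 := j1
  have h1 := wGt1_0_0 h0
  have h2 := wGt1_0_1 h1
  have h3 := wGt1_0_2 h2
  have h4 := wGt1_0_3 h3
  have h5 := wGt1_0_4 h4
  have h6 := wGt1_0_5 h5
  have h7 := wGt1_0_6 h6
  have h8 := wGt1_0_7 h7
  have h9 := wGt1_0_8 h8
  have h10 := wGt1_0_9 h9
  have h11 := wGt1_0_10 h10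
  have h12 := wGt1_0_11 h11
  have h13 := wGt1_0_12 h12
  have h14 := wGt1_0_13 h13
  have h15 := wGt1_0_14 h14
  have h16 := wGt1_0_15 h15
  have h17 := wGt1_0_16 h16
  have h18 := wGt1_0_17 h17
  have h19 := wGt1_0_18 h18
  have h20 := wGt1_0_19 h19
  have h21 := wGt1_0_20 h20
  have h22 := wGt1_0_21 h21
  have h23 := wGt1_0_22 h22
  have h24 := wGt1_0_23 h23
  have h25 := wGt1_0_24 h24
  have h26 := wGt1_0_25 h25
  have h27 := wGt1_0_26 h26
  have h28 := wGt1_0_27 h27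
  have h29 := wGt1_0_28 h28
  have h30 := wGt1_0_29 h29
  have h31 := wGt1_0_30 h30
  have h32 := wGt1_0_31 h31
  have h33 := wGt1_0_32 h32
  have h34 := wGt1_0_33 h33
  have h35 := wGt1_0_34 h34
  have h36 := wGt1_0_35 h35
  have h37 := wGt1_0_36 h36
  have h38 := wGt1_1_0 h37
  have h39 := wGt1_1_1 h38
  have h40 := wGt1_1_2 h39
  have h41 := wGt1_1_3 h40
  have h42 := wGt1_1_4 h41
  have h43 := wGt1_1_5 h42
  have h44 := wGt1_1_6 h43
  have h45 := wGt1_1_7 h44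
  have h46 := wGt1_1_8 h45
  have h47 := wGt1_1_9 h46
  have h48 := wGt1_1_10 h47
  have h49 := wGt1_1_11 h48
  have h50 := wGt1_1_12 h49
  have h51 := wGt1_1_13 h50
  have h52 := wGt1_1_14 h51
  have h53 := wGt1_1_15 h52
  have h54 := wGt1_1_16 h53
  have h55 := wGt1_1_17 h54
  have h56 := wGt1_1_18 h55
  have h57 := wGt1_1_19 h56
  have h58 := wGt1_1_20 h57
  have h59 := wGt1_1_21 h58
  have h60 := wGt1_1_22 h59
  have h61 := wGt1_1_23 h60
  have h62 := wGt1_1_24 h61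
  have h63 := wGt1_1_25 h62
  have h64 := wGt1_1_26 h63
  have h65 := wGt1_1_27 h64
  have h66 := wGt1_1_28 h65
  have h67 := wGt1_1_29 h66
  have h68 := wGt1_1_30 h67
  have h69 := wGt1_2_0 h68
  have h70 := wGt1_2_1 h69
  have h71 := wGt1_2_2 h70
  have h72 := wGt1_2_3 h71
  have h73 := wGt1_2_4 h72
  have h74 := wGt1_2_5 h73
  have h75 := wGt1_2_6 h74
  have h76 := wGt1_2_7 h75
  have h77 := wGt1_2_8 h76
  have h78 := wGt1_2_9 h77
  have h79 := wGt1_2_10 h78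
  have h80 := wGt1_2_11 h79
  have h81 := wGt1_2_12 h80
  have h82 := wGt1_2_13 h81
  have h83 := wGt1_2_14 h82
  have h84 := wGt1_2_15 h83
  have h85 := wGt1_2_16 h84
  have h86 := wGt1_2_17 h85
  have h87 := wGt1_2_18 h86
  have h88 := wGt1_2_19 h87
  have h89 := wGt1_2_20 h88
  have h90 := wGt1_2_21 h89
  have h91 := wGt1_2_22 h90
  have h92 := wGt1_2_23 h91
  have h93 := wGt1_2_24 h92
  have h94 := wGt1_3_0 h93
  have h95 := wGt1_3_1 h94
  have h96 := wGt1_3_2 h95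
  have h97 := wGt1_3_3 h96
  have h98 := wGt1_3_4 h97
  have h99 := wGt1_3_5 h98
  have h100 := wGt1_3_6 h99
  have h101 := wGt1_3_7 h100
  have h102 := wGt1_3_8 h101
  have h103 := wGt1_3_9 h102
  have h104 := wGt1_3_10 h103
  have h105 := wGt1_3_11 h104
  have h106 := wGt1_3_12 h105
  have h107 := wGt1_3_13 h106
  have h108 := wGt1_3_14 h107
  have h109 := wGt1_3_15 h108
  have h110 := wGt1_3_16 h109
  have h111 := wGt1_3_17 h110
  have h112 := wGt1_3_18 h111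
  have h113 := wGt1_3_19 h112
  have h114 := wGt1_3_20 h113
  have h115 := wGt1_3_21 h114
  have h116 := wGt1_3_22 h115
  have h117 := wGt1_3_23 h116
  have h118 := wGt1_3_24 h117
  have h119 := wGt1_3_25 h118
  have h120 := wGt1_3_26 h119
  have h121 := wGt1_3_27 h120
  have h122 := wGt1_3_28 h121
  have h123 := wGt1_3_29 h122
  have h124 := wGt1_4_0 h123
  have h125 := wGt1_4_1 h124
  have h126 := wGt1_4_2 h125
  have h127 := wGt1_4_3 h126
  have h128 := wGt1_4_4 h127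
  have h129 := wGt1_4_5 h128
  have h130 := wGt1_4_6 h129
  have h131 := wGt1_4_7 h130
  have h132 := wGt1_4_8 h131
  have h133 := wGt1_4_9 h132
  have h134 := wGt1_4_10 h133
  have h135 := wGt1_4_11 h134
  have h136 := wGt1_4_12 h135
  have h137 := wGt1_4_13 h136
  have h138 := wGt1_4_14 h137
  have h139 := wGt1_4_15 h138
  have h140 := wGt1_4_16 h139
  have h141 := wGt1_4_17 h140
  have h142 := wGt1_4_18 h141
  have h143 := wGt1_4_19 h142
  have h144 := wGt1_4_20 h143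
  have h145 := wGt1_4_21 h144
  have h146 := wGt1_4_22 h145
  have h147 := wGt1_4_23 h146
  have h148 := wGt1_4_24 h147
  have h149 := wGt1_5_0 h148
  have h150 := wGt1_5_1 h149
  have h151 := wGt1_5_2 h150
  have h152 := wGt1_5_3 h151
  have h153 := wGt1_5_4 h152
  have h154 := wGt1_5_5 h153
  have h155 := wGt1_5_6 h154
  have h156 := wGt1_5_7 h155
  have h157 := wGt1_5_8 h156
  have h158 := wGt1_5_9 h157
  have h159 := wGt1_5_10 h158
  have h160 := wGt1_5_11 h159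
  have h161 := wGt1_5_12 h160
  have h162 := wGt1_5_13 h161
  exact h162

theorem bGt1 : RtI (okB 2 true) (stD (dnL QGt0) SGt1) RBGt1 463 := by
  have h0 := rtI_zero (okB 2 true) (stD (dnL QGt0) SGt1) RBGt1
  have h1 := uGt1 aGt1 h0 oGt1_0_0 (show 0 + 25 = 25 from rfl)
  have h2 := uGt1 aGt1 h1 oGt1_0_1 (show 25 + 25 = 50 from rfl)
  have h3 := uGt1 aGt1 h2 oGt1_0_2 (show 50 + 25 = 75 from rfl)
  have h4 := uGt1 aGt1 h3 oGt1_0_3 (show 75 + 25 = 100 from rfl)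
  have h5 := uGt1 aGt1 h4 oGt1_0_4 (show 100 + 25 = 125 from rfl)
  have h6 := uGt1 aGt1 h5 oGt1_0_5 (show 125 + 25 = 150 from rfl)
  have h7 := uGt1 aGt1 h6 oGt1_0_6 (show 150 + 25 = 175 from rfl)
  have h8 := uGt1 aGt1 h7 oGt1_0_7 (show 175 + 25 = 200 from rfl)
  have h9 := uGt1 aGt1 h8 oGt1_0_8 (show 200 + 25 = 225 from rfl)
  have h10 := uGt1 aGt1 h9 oGt1_0_9 (show 225 + 25 = 250 from rfl)
  have h11 := uGt1 aGt1 h10 oGt1_0_10 (show 250 + 25 = 275 from rfl)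
  have h12 := uGt1 aGt1 h11 oGt1_0_11 (show 275 + 25 = 300 from rfl)
  have h13 := uGt1 aGt1 h12 oGt1_0_12 (show 300 + 25 = 325 from rfl)
  have h14 := uGt1 aGt1 h13 oGt1_0_13 (show 325 + 25 = 350 from rfl)
  have h15 := uGt1 aGt1 h14 oGt1_0_14 (show 350 + 25 = 375 from rfl)
  have h16 := uGt1 aGt1 h15 oGt1_0_15 (show 375 + 25 = 400 from rfl)
  have h17 := uGt1 aGt1 h16 oGt1_0_16 (show 400 + 25 = 425 from rfl)
  have h18 := uGt1 aGt1 h17 oGt1_0_17 (show 425 + 25 = 450 from rfl)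
  have h19 := uGt1 aGt1 h18 oGt1_0_18 (show 450 + 13 = 463 from rfl)
  exact h19

theorem tGt1 : (TGt1.all okJ) = true := by decide +kernel

theorem pGt1_0 : CkP QGt0 (4, 0x13110c1917061405030e0b09)
    [4, 3, 2, 1, 0] 16 := by
  have h0 := ckP_zero QGt0 (4, 0x13110c1917061405030e0b09)
    [4, 3, 2, 1, 0]
  have h1 := ckP_step (k := 16) h0 kGt1_0c0 rfl
  exact h1

theorem pGt1_1 : CkP QGt0 (4, 0x13110a191704011403010e09)
    [3, 2, 1, 0] 8 := by
  have h0 := ckP_zero QGt0 (4, 0x13110a191704011403010e09)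
    [3, 2, 1, 0]
  have h1 := ckP_step (k := 8) h0 kGt1_1c0 rfl
  exact h1

theorem pGt1_2 : CkP QGt0 (6, 0x19130c17100b251f06231c05201b03140f09)
    [6, 5, 4, 3, 2, 1, 0] 64 := by
  have h0 := ckP_zero QGt0 (6, 0x19130c17100b251f06231c05201b03140f09)
    [6, 5, 4, 3, 2, 1, 0]
  have h1 := ckP_step (k := 64) h0 kGt1_2c0 rfl
  exact h1

theorem pGt1_3 : CkP QGt0 (6, 0x19120d16110b251e07221d05211b03150f09)
    [7, 6, 5, 4, 3, 2, 1, 0] 128 := by
  have h0 := ckP_zero QGt0 (6, 0x19120d16110b251e07221d05211b03150f09)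
    [7, 6, 5, 4, 3, 2, 1, 0]
  have h1 := ckP_step (k := 128) h0 kGt1_3c0 rfl
  exact h1

theorem kGt1 : PpI QGt0 1 TGt1 CAGt CBGt 4 := by
  have h0 := ppI_zero QGt0 1 TGt1 CAGt CBGt
  have h1 := ppI_stepV (k' := 1) (q := (4, 0x13110c1917061405030e0b09)) h0 rfl kGt1_0r pGt1_0 kGt1_0m rfl
  have h2 := ppI_stepV (k' := 2) (q := (4, 0x13110a191704011403010e09)) h1 rfl kGt1_1r pGt1_1 kGt1_1m rfl
  have h3 := ppI_stepV (k' := 3) (q := (6, 0x19130c17100b251f06231c05201b03140f09)) h2 rfl kGt1_2r pGt1_2 kGt1_2m rfl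
  have h4 := ppI_stepV (k' := 4) (q := (6, 0x19120d16110b251e07221d05211b03150f09)) h3 rfl kGt1_3r pGt1_3 kGt1_3m rfl
  exact h4

theorem zGt1 : (!false || allK QGt0 (fun _ => true) (nzq CBGt)
  0) = true := by decide +kernel

theorem mGt1A : (Nat.ble 2 2 || memI QGt0 0 1 257) = true := by decide +kernel

theorem mGt1B : (Nat.ble 1 2 || memI QGt0 0 1 1) = true := by decide +kernel

/-- **the phase 1** -/
theorem cGt1 : Dj CAGt CBGt true PLGt (dnL QGt1) :=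
  Dj.rawP vokAGt vokBGt mclAGt mclBGt mkoGt wfpGt cGt0 mGt1A mGt1B (by norm_num) tGt1 kGt1 lenGt zGt1 bGt1

end EF18.P80
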