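import Pool.Agent.Lib.MP_ef18bd_co.R80T.P10

/-!
# Phase 10: closed patterns
-/

namespace EF18.P80

set_option linter.defProp false

def jGt10_0 : j0F QGt9 BGt10 18 0
  0x7020006c2000102000002000283000203000004000d0500000500e98500e945004a83006805003442003ac50017830009c8007507 = true := by
  decide +kernel

end EF18.P80
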