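import Pool.Agent.Lib.MP_ef18bd_co.R80T.P10

/-!
# Phase 10: roots
-/

namespace EF18.P80

set_option linter.defProp false

def oGt10_0_0 : rGt10 0 6
  0x44403c3834302c2824201c1814100c080400d391403834302c2824201c1814100c08040093d110504c4844403c3834302c2824201c1814100c0804007f51705c5854504c4844403c3834302c2824201c1814100c0804005111a0504c4844403c3834302c2824201c1814100c080400241178040111d04 = true := by
  decide +kernel

end EF18.P80
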