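import Pool.Agent.Lib.MP_ef18bd_co.R80T.C9
import Pool.Agent.Lib.MP_ef18bd_co.R80T.P10x0
import Pool.Agent.Lib.MP_ef18bd_co.R80T.P10x1
import Pool.Agent.Lib.MP_ef18bd_co.R80T.P10j0
import Pool.Agent.Lib.MP_ef18bd_co.R80T.P10r0
import Pool.Agent.Lib.MP_ef18bd_co.R80T.P10k0

/-!
# Phase 10
-/

namespace EF18.P80

theorem aGt10 : ∀ i < 1096, Val (stD (dnL QGt9) SGt10) (prc BGt10 i) := by
  have j0 := ents_zeroF QGt9 SGt10 BGt10
  have j1 := ents_dnF (k := 18) j0 jGt10_0 rfl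
  have h0 := j1
  have h1 := wGt10_0_0 h0
  have h2 := wGt10_0_1 h1
  have h3 := wGt10_0_2 h2
  have h4 := wGt10_0_3 h3
  have h5 := wGt10_0_4 h4
  have h6 := wGt10_0_5 h5
  have h7 := wGt10_0_6 h6
  have h8 := wGt10_0_7 h7
  have h9 := wGt10_0_8 h8
  have h10 := wGt10_0_9 h9
  have h11 := wGt10_0_10 h10
  have h12 := wGt10_0_11 h11
  have h13 := wGt10_0_12 h12
  have h14 := wGt10_0_13 h13
  have h15 := wGt10_0_14 h14
  have h16 := wGt10_0_15 h15
  have h17 := wGt10_0_16 h16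
  have h18 := wGt10_0_17 h17
  have h19 := wGt10_0_18 h18
  have h20 := wGt10_0_19 h19
  have h21 := wGt10_0_20 h20
  have h22 := wGt10_0_21 h21
  have h23 := wGt10_0_22 h22
  have h24 := wGt10_0_23 h23
  have h25 := wGt10_0_24 h24
  have h26 := wGt10_0_25 h25
  have h27 := wGt10_0_26 h26
  have h28 := wGt10_0_27 h27
  have h29 := wGt10_1_0 h28
  have h30 := wGt10_1_1 h29
  have h31 := wGt10_1_2 h30
  have h32 := wGt10_1_3 h31
  have h33 := wGt10_1_4 h32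
  have h34 := wGt10_1_5 h33
  have h35 := wGt10_1_6 h34
  have h36 := wGt10_1_7 h35
  have h37 := wGt10_1_8 h36
  have h38 := wGt10_1_9 h37
  have h39 := wGt10_1_10 h38
  have h40 := wGt10_1_11 h39
  have h41 := wGt10_1_12 h40
  have h42 := wGt10_1_13 h41
  have h43 := wGt10_1_14 h42
  have h44 := wGt10_1_15 h43
  exact h44

theorem bGt10 : RtI (okB 1 true) (stD (dnL QGt9) SGt10) RBGt10 6 := by
  have h0 := rtI_zero (okB 1 true) (stD (dnL QGt9) SGt10) RBGt10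
  have h1 := uGt10 aGt10 h0 oGt10_0_0 (show 0 + 6 = 6 from rfl)
  exact h1

theorem tGt10 : (TGt10.all okJ) = true := by decide +kernel

theorem pGt10_0 : CkP QGt9 (4, 0x13110c1917061405030e0b09)
    [2, 0, 0, 0, 0] 16 := by
  have h0 := ckP_zero QGt9 (4, 0x13110c1917061405030e0b09)
    [2, 0, 0, 0, 0]
  have h1 := ckP_step (k := 16) h0 kGt10_0c0 rfl
  exact h1

theorem pGt10_1 : CkP QGt9 (4, 0x13110a191704011403010e09)
    [2, 1, 0, 0] 8 := by
  have h0 := ckP_zero QGt9 (4, 0x13110a191704011403010e09)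
    [2, 1, 0, 0]
  have h1 := ckP_step (k := 8) h0 kGt10_1c0 rfl
  exact h1

theorem pGt10_2 : CkP QGt9 (6, 0x19130c17100b251f06231c05201b03140f09)
    [3, 0, 0, 0, 0, 0, 0] 64 := by
  have h0 := ckP_zero QGt9 (6, 0x19130c17100b251f06231c05201b03140f09)
    [3, 0, 0, 0, 0, 0, 0]
  have h1 := ckP_step (k := 63) h0 kGt10_2c0 rfl
  have h2 := ckP_step (k := 64) h1 kGt10_2c1 rfl
  exact h2

theorem pGt10_3 : CkP QGt9 (6, 0x19120d16110b251e07221d05211b03150f09)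
    [7, 6, 0, 0, 0, 0, 0, 0] 128 := by
  have h0 := ckP_zero QGt9 (6, 0x19120d16110b251e07221d05211b03150f09)
    [7, 6, 0, 0, 0, 0, 0, 0]
  have h1 := ckP_step (k := 128) h0 kGt10_3c0 rfl
  exact h1

theorem kGt10 : PpI QGt9 1 TGt10 CAGt CBGt 4 := by
  have h0 := ppI_zero QGt9 1 TGt10 CAGt CBGt
  have h1 := ppI_stepV (k' := 1) (q := (4, 0x13110c1917061405030e0b09)) h0 rfl kGt10_0r pGt10_0 kGt10_0m rfl
  have h2 := ppI_stepV (k' := 2) (q := (4, 0x13110a191704011403010e09)) h1 rfl kGt10_1r pGt10_1 kGt10_1m rfl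
  have h3 := ppI_stepV (k' := 3) (q := (6, 0x19130c17100b251f06231c05201b03140f09)) h2 rfl kGt10_2r pGt10_2 kGt10_2m rfl
  have h4 := ppI_stepV (k' := 4) (q := (6, 0x19120d16110b251e07221d05211b03150f09)) h3 rfl kGt10_3r pGt10_3 kGt10_3m rfl
  exact h4

theorem zGt10 : (!true || allK QGt9 (fun _ => true) (nzq CBGt)
  0x102) = true := by decide +kernel

theorem mGt10A : (Nat.ble 2 1 || memI QGt9 6 1 257) = true := by decide +kernel

theorem mGt10B : (Nat.ble 1 1 || memI QGt9 0 1 1) = true := by decide +kernel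

/-- **the phase 10** -/
theorem cGt10 : Dj CAGt CBGt true PLGt (dnL QGt10) :=
  Dj.rawP vokAGt vokBGt mclAGt mclBGt mkoGt wfpGt cGt9 mGt10A mGt10B (by norm_num) tGt10 kGt10 lenGt zGt10 bGt10

end EF18.P80
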