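import Pool.Agent.Lib.MP_ef18bd_co.R80T.P11

/-!
# Phase 11: closed patterns
-/

namespace EF18.P80

set_option linter.defProp false

def jGt11_0 : j0F QGt10 BGt11 6 0
  0x6c30000030002840002040003c6000346 = true := by
  decide +kernel

end EF18.P80
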