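import Pool.Agent.Lib.MP_ef18bd_co.R80T.P11

/-!
# Phase 11: roots
-/

namespace EF18.P80

set_option linter.defProp false

def oGt11_0_0 : rGt11 0 3
  0x44403c3834302c2824201c1814100c08000403d14044403c3834302c2824201c18140c1008000402d14044403c383430282c241c2018140c1008000402d14 = true := by
  decide +kernel

end EF18.P80
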