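import Pool.Agent.Lib.MP_ef18bd_co.R80T.C10
import Pool.Agent.Lib.MP_ef18bd_co.R80T.P11x0
import Pool.Agent.Lib.MP_ef18bd_co.R80T.P11j0
import Pool.Agent.Lib.MP_ef18bd_co.R80T.P11r0
import Pool.Agent.Lib.MP_ef18bd_co.R80T.P11k0

/-!
# Phase 11
-/

namespace EF18.P80

theorem aGt11 : ∀ i < 16, Val (stD (dnL QGt10) SGt11) (prc BGt11 i) := by
  have j0 := ents_zeroF QGt10 SGt11 BGt11
  have j1 := ents_dnF (k := 6) j0 jGt11_0 rfl
  have h0 := j1
  have h1 := wGt11_0_0 h0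
  exact h1

theorem bGt11 : RtI (okB 0 true) (stD (dnL QGt10) SGt11) RBGt11 3 := by
  have h0 := rtI_zero (okB 0 true) (stD (dnL QGt10) SGt11) RBGt11
  have h1 := uGt11 aGt11 h0 oGt11_0_0 (show 0 + 3 = 3 from rfl)
  exact h1

theorem tGt11 : (TGt11.all okJ) = true := by decide +kernel

theorem pGt11_0 : CkP QGt10 (4, 0x13110c1917061405030e0b09)
    [2, 0, 0, 0, 0] 16 := by
  have h0 := ckP_zero QGt10 (4, 0x13110c1917061405030e0b09)
    [2, 0, 0, 0, 0]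
  have h1 := ckP_step (k := 16) h0 kGt11_0c0 rfl
  exact h1

theorem pGt11_1 : CkP QGt10 (4, 0x13110a191704011403010e09)
    [2, 1, 0, 0] 8 := by
  have h0 := ckP_zero QGt10 (4, 0x13110a191704011403010e09)
    [2, 1, 0, 0]
  have h1 := ckP_step (k := 8) h0 kGt11_1c0 rfl
  exact h1

theorem pGt11_2 : CkP QGt10 (6, 0x19130c17100b251f06231c05201b03140f09)
    [3, 0, 0, 0, 0, 0, 0] 64 := by
  have h0 := ckP_zero QGt10 (6, 0x19130c17100b251f06231c05201b03140f09)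
    [3, 0, 0, 0, 0, 0, 0]
  have h1 := ckP_step (k := 63) h0 kGt11_2c0 rfl
  have h2 := ckP_step (k := 64) h1 kGt11_2c1 rfl
  exact h2

theorem pGt11_3 : CkP QGt10 (6, 0x19120d16110b251e07221d05211b03150f09)
    [7, 6, 0, 0, 0, 0, 0, 0] 128 := by
  have h0 := ckP_zero QGt10 (6, 0x19120d16110b251e07221d05211b03150f09)
    [7, 6, 0, 0, 0, 0, 0, 0]
  have h1 := ckP_step (k := 128) h0 kGt11_3c0 rfl
  exact h1

theorem kGt11 : PpI QGt10 1 TGt11 CAGt CBGt 4 := by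
  have h0 := ppI_zero QGt10 1 TGt11 CAGt CBGt
  have h1 := ppI_stepV (k' := 1) (q := (4, 0x13110c1917061405030e0b09)) h0 rfl kGt11_0r pGt11_0 kGt11_0m rfl
  have h2 := ppI_stepV (k' := 2) (q := (4, 0x13110a191704011403010e09)) h1 rfl kGt11_1r pGt11_1 kGt11_1m rfl
  have h3 := ppI_stepV (k' := 3) (q := (6, 0x19130c17100b251f06231c05201b03140f09)) h2 rfl kGt11_2r pGt11_2 kGt11_2m rfl
  have h4 := ppI_stepV (k' := 4) (q := (6, 0x19120d16110b251e07221d05211b03150f09)) h3 rfl kGt11_3r pGt11_3 kGt11_3m rfl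
  exact h4

theorem zGt11 : (!true || allK QGt10 (fun _ => true) (nzq CBGt)
  0x103) = true := by decide +kernel

theorem mGt11A : (Nat.ble 2 0 || memI QGt10 7 1 257) = true := by decide +kernel

theorem mGt11B : (Nat.ble 1 0 || memI QGt10 0 1 1) = true := by decide +kernel

/-- **the phase 11** -/
theorem cGt11 : Dj CAGt CBGt true PLGt (dnL QGt11) :=
  Dj.rawP vokAGt vokBGt mclAGt mclBGt mkoGt wfpGt cGt10 mGt11A mGt11B (by norm_num) tGt11 kGt11 lenGt zGt11 bGt11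

end EF18.P80
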