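import Pool.Agent.Lib.MP_ef18bd_co.R80T.P12

/-!
# Phase 12: closed patterns
-/

namespace EF18.P80

set_option linter.defProp false

def jGt12_0 : j0F QGt11 BGt12 22 0
  0x800000000001410001010000c1000081000041000046000006000ec7000e070000870000070000480020cb0007ca00018a000f0b000ecb00048b00014b00000b = true := by
  decide +kernel

end EF18.P80
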