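import Pool.Agent.Lib.MP_ef18bd_co.R80T.P12

/-!
# Phase 12: roots
-/

namespace EF18.P80

set_option linter.defProp false

def oGt12_0_0 : rGt12 0 8
  0x14100c080401629080201c180800056290802c2824040009629080383430140c1162908044403c100c1562908038303420181d629080403c4428242d62908014100c08040162908 = true := by
  decide +kernel

end EF18.P80
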