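import Pool.Agent.Lib.MP_ef18bd_co.R80T.C11
import Pool.Agent.Lib.MP_ef18bd_co.R80T.P12x0
import Pool.Agent.Lib.MP_ef18bd_co.R80T.P12x1
import Pool.Agent.Lib.MP_ef18bd_co.R80T.P12x2
import Pool.Agent.Lib.MP_ef18bd_co.R80T.P12x3
import Pool.Agent.Lib.MP_ef18bd_co.R80T.P12j0
import Pool.Agent.Lib.MP_ef18bd_co.R80T.P12r0
import Pool.Agent.Lib.MP_ef18bd_co.R80T.P12k0

/-!
# Phase 12
-/

namespace EF18.P80

theorem aGt12 : ∀ i < 1419, Val (stD (dnL QGt11) SGt12) (prc BGt12 i) := by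
  have j0 := ents_zeroF QGt11 SGt12 BGt12
  have j1 := ents_dnF (k := 22) j0 jGt12_0 rfl
  have h0 := j1
  have h1 := wGt12_0_0 h0
  have h2 := wGt12_0_1 h1
  have h3 := wGt12_0_2 h2
  have h4 := wGt12_0_3 h3
  have h5 := wGt12_0_4 h4
  have h6 := wGt12_0_5 h5
  have h7 := wGt12_0_6 h6
  have h8 := wGt12_0_7 h7
  have h9 := wGt12_0_8 h8
  have h10 := wGt12_0_9 h9
  have h11 := wGt12_0_10 h10
  have h12 := wGt12_0_11 h11
  have h13 := wGt12_0_12 h12
  have h14 := wGt12_0_13 h13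
  have h15 := wGt12_0_14 h14
  have h16 := wGt12_0_15 h15
  have h17 := wGt12_1_0 h16
  have h18 := wGt12_1_1 h17
  have h19 := wGt12_1_2 h18
  have h20 := wGt12_1_3 h19
  have h21 := wGt12_1_4 h20
  have h22 := wGt12_1_5 h21
  have h23 := wGt12_1_6 h22
  have h24 := wGt12_1_7 h23
  have h25 := wGt12_1_8 h24
  have h26 := wGt12_1_9 h25
  have h27 := wGt12_1_10 h26
  have h28 := wGt12_1_11 h27
  have h29 := wGt12_1_12 h28
  have h30 := wGt12_1_13 h29
  have h31 := wGt12_1_14 h30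
  have h32 := wGt12_1_15 h31
  have h33 := wGt12_1_16 h32
  have h34 := wGt12_2_0 h33
  have h35 := wGt12_2_1 h34
  have h36 := wGt12_2_2 h35
  have h37 := wGt12_2_3 h36
  have h38 := wGt12_2_4 h37
  have h39 := wGt12_2_5 h38
  have h40 := wGt12_2_6 h39
  have h41 := wGt12_2_7 h40
  have h42 := wGt12_2_8 h41
  have h43 := wGt12_2_9 h42
  have h44 := wGt12_2_10 h43
  have h45 := wGt12_2_11 h44
  have h46 := wGt12_2_12 h45
  have h47 := wGt12_2_13 h46
  have h48 := wGt12_2_14 h47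
  have h49 := wGt12_2_15 h48
  have h50 := wGt12_3_0 h49
  have h51 := wGt12_3_1 h50
  have h52 := wGt12_3_2 h51
  have h53 := wGt12_3_3 h52
  have h54 := wGt12_3_4 h53
  have h55 := wGt12_3_5 h54
  have h56 := wGt12_3_6 h55
  have h57 := wGt12_3_7 h56
  have h58 := wGt12_3_8 h57
  exact h58

theorem bGt12 : RtI (okB 0 true) (stD (dnL QGt11) SGt12) RBGt12 8 := by
  have h0 := rtI_zero (okB 0 true) (stD (dnL QGt11) SGt12) RBGt12
  have h1 := uGt12 aGt12 h0 oGt12_0_0 (show 0 + 8 = 8 from rfl)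
  exact h1

theorem tGt12 : (TGt12.all okJ) = true := by decide +kernel

theorem pGt12_0 : CkP QGt11 (4, 0x13110c1917061405030e0b09)
    [2, 0, 0, 0, 0] 16 := by
  have h0 := ckP_zero QGt11 (4, 0x13110c1917061405030e0b09)
    [2, 0, 0, 0, 0]
  have h1 := ckP_step (k := 16) h0 kGt12_0c0 rfl
  exact h1

theorem pGt12_1 : CkP QGt11 (4, 0x13110a191704011403010e09)
    [2, 0, 0, 0] 8 := by
  have h0 := ckP_zero QGt11 (4, 0x13110a191704011403010e09)
    [2, 0, 0, 0]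
  have h1 := ckP_step (k := 8) h0 kGt12_1c0 rfl
  exact h1

theorem pGt12_2 : CkP QGt11 (6, 0x19130c17100b251f06231c05201b03140f09)
    [3, 0, 0, 0, 0, 0, 0] 64 := by
  have h0 := ckP_zero QGt11 (6, 0x19130c17100b251f06231c05201b03140f09)
    [3, 0, 0, 0, 0, 0, 0]
  have h1 := ckP_step (k := 63) h0 kGt12_2c0 rfl
  have h2 := ckP_step (k := 64) h1 kGt12_2c1 rfl
  exact h2

theorem pGt12_3 : CkP QGt11 (6, 0x19120d16110b251e07221d05211b03150f09)
    [7, 6, 0, 0, 0, 0, 0, 0] 128 := by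
  have h0 := ckP_zero QGt11 (6, 0x19120d16110b251e07221d05211b03150f09)
    [7, 6, 0, 0, 0, 0, 0, 0]
  have h1 := ckP_step (k := 128) h0 kGt12_3c0 rfl
  exact h1

theorem kGt12 : PpI QGt11 1 TGt12 CAGt CBGt 4 := by
  have h0 := ppI_zero QGt11 1 TGt12 CAGt CBGt
  have h1 := ppI_stepV (k' := 1) (q := (4, 0x13110c1917061405030e0b09)) h0 rfl kGt12_0r pGt12_0 kGt12_0m rfl
  have h2 := ppI_stepV (k' := 2) (q := (4, 0x13110a191704011403010e09)) h1 rfl kGt12_1r pGt12_1 kGt12_1m rfl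
  have h3 := ppI_stepV (k' := 3) (q := (6, 0x19130c17100b251f06231c05201b03140f09)) h2 rfl kGt12_2r pGt12_2 kGt12_2m rfl
  have h4 := ppI_stepV (k' := 4) (q := (6, 0x19120d16110b251e07221d05211b03150f09)) h3 rfl kGt12_3r pGt12_3 kGt12_3m rfl
  exact h4

theorem zGt12 : (!true || allK QGt11 (fun _ => true) (nzq CBGt)
  0x104) = true := by decide +kernel

theorem mGt12A : (Nat.ble 2 0 || memI QGt11 8 1 257) = true := by decide +kernel

theorem mGt12B : (Nat.ble 1 0 || memI QGt11 1 1 1) = true := by decide +kernel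

/-- **the phase 12** -/
theorem cGt12 : Dj CAGt CBGt true PLGt (dnL QGt12) :=
  Dj.rawP vokAGt vokBGt mclAGt mclBGt mkoGt wfpGt cGt11 mGt12A mGt12B (by norm_num) tGt12 kGt12 lenGt zGt12 bGt12

end EF18.P80
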