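import Pool.Agent.Lib.MP_ef18bd_co.R80T.P2

/-!
# Phase 2: closed patterns
-/

namespace EF18.P80

set_option linter.defProp false

def jGt2_0 : j0F QGt1 BGt2 60 0
  0x73800069800073000072c00066800072400065c00064400071800071400071000070c0006340006300007000006fc0006f80006f40006f00006ec00061c0006140005b00005a800059c0006d40005700006cc00055c0006c40006c00005440006b80006b40006b00006ac0006a80006a40006a00004d80016001015fc1015f81016981015f01016581015e010164c1015d810164010163810163410163010162c1015d01016241015cc1015c41015bc1015b81 = true := by
  decide +kernel

end EF18.P80
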