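import Pool.Agent.Lib.MP_ef18bd_co.R80T.C1
import Pool.Agent.Lib.MP_ef18bd_co.R80T.P2x0
import Pool.Agent.Lib.MP_ef18bd_co.R80T.P2x1
import Pool.Agent.Lib.MP_ef18bd_co.R80T.P2j0
import Pool.Agent.Lib.MP_ef18bd_co.R80T.P2r0
import Pool.Agent.Lib.MP_ef18bd_co.R80T.P2k0

/-!
# Phase 2
-/

namespace EF18.P80

theorem aGt2 : ∀ i < 1239, Val (stD (dnL QGt1) SGt2) (prc BGt2 i) := by
  have j0 := ents_zeroF QGt1 SGt2 BGt2
  have j1 := ents_dnF (k := 60) j0 jGt2_0 rfl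
  have h0 := j1
  have h1 := wGt2_0_0 h0
  have h2 := wGt2_0_1 h1
  have h3 := wGt2_0_2 h2
  have h4 := wGt2_0_3 h3
  have h5 := wGt2_0_4 h4
  have h6 := wGt2_0_5 h5
  have h7 := wGt2_0_6 h6
  have h8 := wGt2_0_7 h7
  have h9 := wGt2_0_8 h8
  have h10 := wGt2_0_9 h9
  have h11 := wGt2_0_10 h10
  have h12 := wGt2_0_11 h11
  have h13 := wGt2_0_12 h12
  have h14 := wGt2_0_13 h13
  have h15 := wGt2_0_14 h14
  have h16 := wGt2_0_15 h15
  have h17 := wGt2_0_16 h16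
  have h18 := wGt2_0_17 h17
  have h19 := wGt2_0_18 h18
  have h20 := wGt2_0_19 h19
  have h21 := wGt2_0_20 h20
  have h22 := wGt2_0_21 h21
  have h23 := wGt2_0_22 h22
  have h24 := wGt2_0_23 h23
  have h25 := wGt2_0_24 h24
  have h26 := wGt2_0_25 h25
  have h27 := wGt2_0_26 h26
  have h28 := wGt2_0_27 h27
  have h29 := wGt2_0_28 h28
  have h30 := wGt2_0_29 h29
  have h31 := wGt2_0_30 h30
  have h32 := wGt2_0_31 h31
  have h33 := wGt2_0_32 h32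
  have h34 := wGt2_0_33 h33
  have h35 := wGt2_0_34 h34
  have h36 := wGt2_0_35 h35
  have h37 := wGt2_0_36 h36
  have h38 := wGt2_0_37 h37
  have h39 := wGt2_0_38 h38
  have h40 := wGt2_0_39 h39
  have h41 := wGt2_0_40 h40
  have h42 := wGt2_0_41 h41
  have h43 := wGt2_0_42 h42
  have h44 := wGt2_0_43 h43
  have h45 := wGt2_1_0 h44
  have h46 := wGt2_1_1 h45
  have h47 := wGt2_1_2 h46
  have h48 := wGt2_1_3 h47
  exact h48

theorem bGt2 : RtI (okB 2 true) (stD (dnL QGt1) SGt2) RBGt2 771 := by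
  have h0 := rtI_zero (okB 2 true) (stD (dnL QGt1) SGt2) RBGt2
  have h1 := uGt2 aGt2 h0 oGt2_0_0 (show 0 + 25 = 25 from rfl)
  have h2 := uGt2 aGt2 h1 oGt2_0_1 (show 25 + 25 = 50 from rfl)
  have h3 := uGt2 aGt2 h2 oGt2_0_2 (show 50 + 25 = 75 from rfl)
  have h4 := uGt2 aGt2 h3 oGt2_0_3 (show 75 + 25 = 100 from rfl)
  have h5 := uGt2 aGt2 h4 oGt2_0_4 (show 100 + 25 = 125 from rfl)
  have h6 := uGt2 aGt2 h5 oGt2_0_5 (show 125 + 25 = 150 from rfl)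
  have h7 := uGt2 aGt2 h6 oGt2_0_6 (show 150 + 25 = 175 from rfl)
  have h8 := uGt2 aGt2 h7 oGt2_0_7 (show 175 + 25 = 200 from rfl)
  have h9 := uGt2 aGt2 h8 oGt2_0_8 (show 200 + 25 = 225 from rfl)
  have h10 := uGt2 aGt2 h9 oGt2_0_9 (show 225 + 25 = 250 from rfl)
  have h11 := uGt2 aGt2 h10 oGt2_0_10 (show 250 + 25 = 275 from rfl)
  have h12 := uGt2 aGt2 h11 oGt2_0_11 (show 275 + 25 = 300 from rfl)
  have h13 := uGt2 aGt2 h12 oGt2_0_12 (show 300 + 25 = 325 from rfl)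
  have h14 := uGt2 aGt2 h13 oGt2_0_13 (show 325 + 25 = 350 from rfl)
  have h15 := uGt2 aGt2 h14 oGt2_0_14 (show 350 + 25 = 375 from rfl)
  have h16 := uGt2 aGt2 h15 oGt2_0_15 (show 375 + 25 = 400 from rfl)
  have h17 := uGt2 aGt2 h16 oGt2_0_16 (show 400 + 25 = 425 from rfl)
  have h18 := uGt2 aGt2 h17 oGt2_0_17 (show 425 + 25 = 450 from rfl)
  have h19 := uGt2 aGt2 h18 oGt2_0_18 (show 450 + 25 = 475 from rfl)
  have h20 := uGt2 aGt2 h19 oGt2_0_19 (show 475 + 25 = 500 from rfl)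
  have h21 := uGt2 aGt2 h20 oGt2_0_20 (show 500 + 25 = 525 from rfl)
  have h22 := uGt2 aGt2 h21 oGt2_0_21 (show 525 + 25 = 550 from rfl)
  have h23 := uGt2 aGt2 h22 oGt2_0_22 (show 550 + 25 = 575 from rfl)
  have h24 := uGt2 aGt2 h23 oGt2_0_23 (show 575 + 25 = 600 from rfl)
  have h25 := uGt2 aGt2 h24 oGt2_0_24 (show 600 + 25 = 625 from rfl)
  have h26 := uGt2 aGt2 h25 oGt2_0_25 (show 625 + 25 = 650 from rfl)
  have h27 := uGt2 aGt2 h26 oGt2_0_26 (show 650 + 25 = 675 from rfl)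
  have h28 := uGt2 aGt2 h27 oGt2_0_27 (show 675 + 25 = 700 from rfl)
  have h29 := uGt2 aGt2 h28 oGt2_0_28 (show 700 + 25 = 725 from rfl)
  have h30 := uGt2 aGt2 h29 oGt2_0_29 (show 725 + 25 = 750 from rfl)
  have h31 := uGt2 aGt2 h30 oGt2_0_30 (show 750 + 21 = 771 from rfl)
  exact h31

theorem tGt2 : (TGt2.all okJ) = true := by decide +kernel

theorem pGt2_0 : CkP QGt1 (4, 0x13110c1917061405030e0b09)
    [4, 3, 2, 1, 0] 16 := by
  have h0 := ckP_zero QGt1 (4, 0x13110c1917061405030e0b09)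
    [4, 3, 2, 1, 0]
  have h1 := ckP_step (k := 16) h0 kGt2_0c0 rfl
  exact h1

theorem pGt2_1 : CkP QGt1 (4, 0x13110a191704011403010e09)
    [3, 2, 1, 0] 8 := by
  have h0 := ckP_zero QGt1 (4, 0x13110a191704011403010e09)
    [3, 2, 1, 0]
  have h1 := ckP_step (k := 8) h0 kGt2_1c0 rfl
  exact h1

theorem pGt2_2 : CkP QGt1 (6, 0x19130c17100b251f06231c05201b03140f09)
    [6, 5, 4, 3, 2, 1, 0] 64 := by
  have h0 := ckP_zero QGt1 (6, 0x19130c17100b251f06231c05201b03140f09)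
    [6, 5, 4, 3, 2, 1, 0]
  have h1 := ckP_step (k := 64) h0 kGt2_2c0 rfl
  exact h1

theorem pGt2_3 : CkP QGt1 (6, 0x19120d16110b251e07221d05211b03150f09)
    [7, 6, 5, 4, 3, 2, 1, 0] 128 := by
  have h0 := ckP_zero QGt1 (6, 0x19120d16110b251e07221d05211b03150f09)
    [7, 6, 5, 4, 3, 2, 1, 0]
  have h1 := ckP_step (k := 128) h0 kGt2_3c0 rfl
  exact h1

theorem kGt2 : PpI QGt1 1 TGt2 CAGt CBGt 4 := by
  have h0 := ppI_zero QGt1 1 TGt2 CAGt CBGt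
  have h1 := ppI_stepV (k' := 1) (q := (4, 0x13110c1917061405030e0b09)) h0 rfl kGt2_0r pGt2_0 kGt2_0m rfl
  have h2 := ppI_stepV (k' := 2) (q := (4, 0x13110a191704011403010e09)) h1 rfl kGt2_1r pGt2_1 kGt2_1m rfl
  have h3 := ppI_stepV (k' := 3) (q := (6, 0x19130c17100b251f06231c05201b03140f09)) h2 rfl kGt2_2r pGt2_2 kGt2_2m rfl
  have h4 := ppI_stepV (k' := 4) (q := (6, 0x19120d16110b251e07221d05211b03150f09)) h3 rfl kGt2_3r pGt2_3 kGt2_3m rfl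
  exact h4

theorem zGt2 : (!false || allK QGt1 (fun _ => true) (nzq CBGt)
  0) = true := by decide +kernel

theorem mGt2A : (Nat.ble 2 2 || memI QGt1 0 1 257) = true := by decide +kernel

theorem mGt2B : (Nat.ble 1 2 || memI QGt1 0 1 1) = true := by decide +kernel

/-- **the phase 2** -/
theorem cGt2 : Dj CAGt CBGt true PLGt (dnL QGt2) :=
  Dj.rawP vokAGt vokBGt mclAGt mclBGt mkoGt wfpGt cGt1 mGt2A mGt2B (by norm_num) tGt2 kGt2 lenGt zGt2 bGt2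

end EF18.P80
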