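import Pool.Agent.Lib.MP_ef18bd_co.R80T.P3

/-!
# Phase 3: the states of the components
-/

namespace EF18.P80

set_option linter.defProp false

def kGt3_0r : rwV 1 TGt3 (gE CAGt 0) (gE CBGt 0)
  [4, 3, 0, 0, 0] = true := by
  decide +kernel

def kGt3_0m : lnV (4, 0x13110c1917061405030e0b09) 16 = true := by
  decide +kernel

def kGt3_0c0 : ckV QGt2 (4, 0x13110c1917061405030e0b09) [4, 3, 0, 0, 0] 0 16
  [0, 1, 1, 1, 1, 1, 1, 0, 1, 1, 1, 0, 1, 0, 0, 0]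
  0x1410001020000c20001010000820000420000c1000081000041000001 = true := by
  decide +kernel

def kGt3_1r : rwV 1 TGt3 (gE CAGt 1) (gE CBGt 1)
  [3, 2, 1, 0] = true := by
  decide +kernel

def kGt3_1m : lnV (4, 0x13110a191704011403010e09) 8 = true := by
  decide +kernel

def kGt3_1c0 : ckV QGt2 (4, 0x13110a191704011403010e09) [3, 2, 1, 0] 0 8
  [0, 0, 0, 0, 0, 0, 0, 0]
  0 = true := by
  decide +kernel

def kGt3_2r : rwV 1 TGt3 (gE CAGt 2) (gE CBGt 2)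
  [6, 5, 4, 0, 0, 0, 0] = true := by
  decide +kernel

def kGt3_2m : lnV (6, 0x19130c17100b251f06231c05201b03140f09) 64 = true := by
  decide +kernel

def kGt3_2c0 : ckV QGt2 (6, 0x19130c17100b251f06231c05201b03140f09) [6, 5, 4, 0, 0, 0, 0] 0 64
  [0, 1, 1, 1, 1, 1, 1, 1, 1, 1, 1, 1, 1, 1, 1, 0, 1, 1, 1, 1, 1, 1, 1, 0, 1, 1, 1, 0, 1, 0, 0, 0, 1, 1, 1, 1,
1, 1, 1, 0, 1, 1, 1, 0, 1, 0, 0, 0, 1, 1, 1, 0, 1, 0, 0, 0, 1, 0, 0, 0, 0, 0, 0, 0]
  0xdc2000d02000cc2000c82000c42000bc2000b42000b02000ac2000a42000a020009c20009820009420009020008c20008420007c20007820007420006c20006820006420006020005c20005820005420004c20004820004420004020003c20003820003420003020002c20002820002420002020001c2000182 = true := by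
  decide +kernel

def kGt3_3r : rwV 1 TGt3 (gE CAGt 3) (gE CBGt 3)
  [7, 6, 5, 4, 0, 0, 1, 0] = true := by
  decide +kernel

def kGt3_3m : lnV (6, 0x19120d16110b251e07221d05211b03150f09) 128 = true := by
  decide +kernel

def kGt3_3c0 : ckV QGt2 (6, 0x19120d16110b251e07221d05211b03150f09) [7, 6, 5, 4, 0, 0, 1, 0] 0 128
  [0, 0, 0, 1, 0, 1, 1, 1, 0, 1, 1, 1, 1, 1, 1, 0, 0, 1, 1, 1, 1, 1, 1, 0, 1, 1, 1, 0, 1, 0, 0, 0, 0, 1, 1, 1,
1, 1, 1, 0, 1, 1, 1, 0, 1, 0, 0, 0, 1, 1, 1, 0, 1, 0, 0, 0, 1, 0, 0, 0, 0, 0, 0, 0, 0, 1, 1, 1, 1, 1, 1, 0,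
1, 1, 1, 0, 1, 0, 0, 0, 1, 1, 1, 0, 1, 0, 0, 0, 1, 0, 0, 0, 0, 0, 0, 0, 1, 1, 1, 0, 1, 0, 0, 0, 1, 0, 0, 0,
0, 0, 0, 0, 1, 0, 0, 0, 0, 0, 0, 0, 0, 0, 0, 0, 0, 0, 0, 0]
  0xa010009410008810008010007c1000781001cc20006410005c1001c82001c42000501000481001c02001bc2001b42001b02001ac2001a82001a42001a020019420003410002c10019020018c20002010001810018820018420017c20017820017420017020016c20016820015820015020014c20014820014020013c20013820013420013020012c20012020011c20011820011420011020010c2001042001002000fc2000f42 = true := by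
  decide +kernel

end EF18.P80
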