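import Pool.Agent.Lib.MP_ef18bd_co.R80T.P3

/-!
# Phase 3: entries
-/

namespace EF18.P80

set_option linter.defProp false

def vGt3_3_0_0 : gGt3 [(0x14,
  0x2c2824383430201c1814100c08040326111038343010140c080401df10b100102c242810140c080401df10b1001010140c0804005a908)] 3225 = true := by decide +kernel

def vGt3_3_0_1 : gGt3 [(0x20,
  0x44403c1c201814100c0804032650e044403c3834302c2824201c1814100c08040325d1402c28241c201814100c08040207d0e10010383430201c1814100c080400a590e200101c201814100c0804017810b)] 3226 = true := by decide +kernel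

def vGt3_3_0_2 : gGt3 [(0x1c,
  0x383430201c1814100c0804032650e03834302c2824201c1814100c0804032691102c2824201c1814100c08040207d0e10010201c1814100c0804017810b)] 3227 = true := by decide +kernel

def vGt3_3_0_3 : gGt3 [(0x14,
  0x2c2824201c1814100c08040326d0e02c282410140c080401df10b1001010140c0804005a908)] 3228 = true := by decide +kernel

def vGt3_3_0_4 : gGt3 [(0x10,
  0x201c1814100c0804032710b0201c1814100c080401df10b014100c0804005a908)] 3229 = true := by decide +kernel

def vGt3_3_0_5 : gGt3 [(0x8,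
  0x14100c08040327508014100c0804031bd080c01)] 3230 = true := by decide +kernel

theorem wGt3_3_0 (h0 : ∀ i < 3225, Val (stD (dnL QGt2) SGt3) (prc BGt3 i)) :
    ∀ i < 3231, Val (stD (dnL QGt2) SGt3) (prc BGt3 i) := by
  have h1 := iGt3 (k := 3226) h0 vGt3_3_0_0 rfl
  have h2 := iGt3 (k := 3227) h1 vGt3_3_0_1 rfl
  have h3 := iGt3 (k := 3228) h2 vGt3_3_0_2 rfl
  have h4 := iGt3 (k := 3229) h3 vGt3_3_0_3 rfl
  have h5 := iGt3 (k := 3230) h4 vGt3_3_0_4 rfl
  have h6 := iGt3 (k := 3231) h5 vGt3_3_0_5 rfl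
  exact h6

end EF18.P80
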