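import Pool.Agent.Lib.MP_ef18bd_co.R80T.C2
import Pool.Agent.Lib.MP_ef18bd_co.R80T.P3x0
import Pool.Agent.Lib.MP_ef18bd_co.R80T.P3x1
import Pool.Agent.Lib.MP_ef18bd_co.R80T.P3x2
import Pool.Agent.Lib.MP_ef18bd_co.R80T.P3x3
import Pool.Agent.Lib.MP_ef18bd_co.R80T.P3j0
import Pool.Agent.Lib.MP_ef18bd_co.R80T.P3r0
import Pool.Agent.Lib.MP_ef18bd_co.R80T.P3k0

/-!
# Phase 3
-/

namespace EF18.P80

theorem aGt3 : ∀ i < 3231, Val (stD (dnL QGt2) SGt3) (prc BGt3 i) := by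
  have j0 := ents_zeroF QGt2 SGt3 BGt3
  have j1 := ents_dnF (k := 100) j0 jGt3_0 rfl
  have j2 := ents_dnF (k := 200) j1 jGt3_1 rfl
  have j3 := ents_dnF (k := 300) j2 jGt3_2 rfl
  have j4 := ents_dnF (k := 400) j3 jGt3_3 rfl
  have j5 := ents_dnF (k := 500) j4 jGt3_4 rfl
  have j6 := ents_dnF (k := 600) j5 jGt3_5 rfl
  have j7 := ents_dnF (k := 700) j6 jGt3_6 rfl
  have j8 := ents_dnF (k := 800) j7 jGt3_7 rfl
  have j9 := ents_dnF (k := 900) j8 jGt3_8 rfl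
  have j10 := ents_dnF (k := 1000) j9 jGt3_9 rfl
  have j11 := ents_dnF (k := 1100) j10 jGt3_10 rfl
  have j12 := ents_dnF (k := 1168) j11 jGt3_11 rfl
  have h0 := j12
  have h1 := wGt3_0_0 h0
  have h2 := wGt3_0_1 h1
  have h3 := wGt3_0_2 h2
  have h4 := wGt3_0_3 h3
  have h5 := wGt3_0_4 h4
  have h6 := wGt3_0_5 h5
  have h7 := wGt3_0_6 h6
  have h8 := wGt3_0_7 h7
  have h9 := wGt3_0_8 h8
  have h10 := wGt3_0_9 h9
  have h11 := wGt3_0_10 h10
  have h12 := wGt3_0_11 h11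
  have h13 := wGt3_0_12 h12
  have h14 := wGt3_0_13 h13
  have h15 := wGt3_0_14 h14
  have h16 := wGt3_0_15 h15
  have h17 := wGt3_0_16 h16
  have h18 := wGt3_0_17 h17
  have h19 := wGt3_0_18 h18
  have h20 := wGt3_0_19 h19
  have h21 := wGt3_0_20 h20
  have h22 := wGt3_0_21 h21
  have h23 := wGt3_0_22 h22
  have h24 := wGt3_0_23 h23
  have h25 := wGt3_0_24 h24
  have h26 := wGt3_0_25 h25
  have h27 := wGt3_0_26 h26
  have h28 := wGt3_0_27 h27
  have h29 := wGt3_0_28 h28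
  have h30 := wGt3_1_0 h29
  have h31 := wGt3_1_1 h30
  have h32 := wGt3_1_2 h31
  have h33 := wGt3_1_3 h32
  have h34 := wGt3_1_4 h33
  have h35 := wGt3_1_5 h34
  have h36 := wGt3_1_6 h35
  have h37 := wGt3_1_7 h36
  have h38 := wGt3_1_8 h37
  have h39 := wGt3_1_9 h38
  have h40 := wGt3_1_10 h39
  have h41 := wGt3_1_11 h40
  have h42 := wGt3_1_12 h41
  have h43 := wGt3_1_13 h42
  have h44 := wGt3_1_14 h43
  have h45 := wGt3_1_15 h44
  have h46 := wGt3_1_16 h45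
  have h47 := wGt3_1_17 h46
  have h48 := wGt3_1_18 h47
  have h49 := wGt3_1_19 h48
  have h50 := wGt3_1_20 h49
  have h51 := wGt3_1_21 h50
  have h52 := wGt3_1_22 h51
  have h53 := wGt3_1_23 h52
  have h54 := wGt3_1_24 h53
  have h55 := wGt3_1_25 h54
  have h56 := wGt3_1_26 h55
  have h57 := wGt3_1_27 h56
  have h58 := wGt3_1_28 h57
  have h59 := wGt3_1_29 h58
  have h60 := wGt3_1_30 h59
  have h61 := wGt3_2_0 h60
  have h62 := wGt3_2_1 h61
  have h63 := wGt3_2_2 h62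
  have h64 := wGt3_2_3 h63
  have h65 := wGt3_2_4 h64
  have h66 := wGt3_2_5 h65
  have h67 := wGt3_2_6 h66
  have h68 := wGt3_2_7 h67
  have h69 := wGt3_2_8 h68
  have h70 := wGt3_2_9 h69
  have h71 := wGt3_2_10 h70
  have h72 := wGt3_2_11 h71
  have h73 := wGt3_2_12 h72
  have h74 := wGt3_2_13 h73
  have h75 := wGt3_2_14 h74
  have h76 := wGt3_2_15 h75
  have h77 := wGt3_2_16 h76
  have h78 := wGt3_2_17 h77
  have h79 := wGt3_2_18 h78
  have h80 := wGt3_2_19 h79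
  have h81 := wGt3_2_20 h80
  have h82 := wGt3_2_21 h81
  have h83 := wGt3_2_22 h82
  have h84 := wGt3_2_23 h83
  have h85 := wGt3_3_0 h84
  exact h85

theorem bGt3 : RtI (okB 2 true) (stD (dnL QGt2) SGt3) RBGt3 44 := by
  have h0 := rtI_zero (okB 2 true) (stD (dnL QGt2) SGt3) RBGt3
  have h1 := uGt3 aGt3 h0 oGt3_0_0 (show 0 + 25 = 25 from rfl)
  have h2 := uGt3 aGt3 h1 oGt3_0_1 (show 25 + 19 = 44 from rfl)
  exact h2

theorem tGt3 : (TGt3.all okJ) = true := by decide +kernel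

theorem pGt3_0 : CkP QGt2 (4, 0x13110c1917061405030e0b09)
    [4, 3, 0, 0, 0] 16 := by
  have h0 := ckP_zero QGt2 (4, 0x13110c1917061405030e0b09)
    [4, 3, 0, 0, 0]
  have h1 := ckP_step (k := 16) h0 kGt3_0c0 rfl
  exact h1

theorem pGt3_1 : CkP QGt2 (4, 0x13110a191704011403010e09)
    [3, 2, 1, 0] 8 := by
  have h0 := ckP_zero QGt2 (4, 0x13110a191704011403010e09)
    [3, 2, 1, 0]
  have h1 := ckP_step (k := 8) h0 kGt3_1c0 rfl
  exact h1

theorem pGt3_2 : CkP QGt2 (6, 0x19130c17100b251f06231c05201b03140f09)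
    [6, 5, 4, 0, 0, 0, 0] 64 := by
  have h0 := ckP_zero QGt2 (6, 0x19130c17100b251f06231c05201b03140f09)
    [6, 5, 4, 0, 0, 0, 0]
  have h1 := ckP_step (k := 64) h0 kGt3_2c0 rfl
  exact h1

theorem pGt3_3 : CkP QGt2 (6, 0x19120d16110b251e07221d05211b03150f09)
    [7, 6, 5, 4, 0, 0, 1, 0] 128 := by
  have h0 := ckP_zero QGt2 (6, 0x19120d16110b251e07221d05211b03150f09)
    [7, 6, 5, 4, 0, 0, 1, 0]
  have h1 := ckP_step (k := 128) h0 kGt3_3c0 rfl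
  exact h1

theorem kGt3 : PpI QGt2 1 TGt3 CAGt CBGt 4 := by
  have h0 := ppI_zero QGt2 1 TGt3 CAGt CBGt
  have h1 := ppI_stepV (k' := 1) (q := (4, 0x13110c1917061405030e0b09)) h0 rfl kGt3_0r pGt3_0 kGt3_0m rfl
  have h2 := ppI_stepV (k' := 2) (q := (4, 0x13110a191704011403010e09)) h1 rfl kGt3_1r pGt3_1 kGt3_1m rfl
  have h3 := ppI_stepV (k' := 3) (q := (6, 0x19130c17100b251f06231c05201b03140f09)) h2 rfl kGt3_2r pGt3_2 kGt3_2m rfl
  have h4 := ppI_stepV (k' := 4) (q := (6, 0x19120d16110b251e07221d05211b03150f09)) h3 rfl kGt3_3r pGt3_3 kGt3_3m rfl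
  exact h4

theorem zGt3 : (!false || allK QGt2 (fun _ => true) (nzq CBGt)
  0) = true := by decide +kernel

theorem mGt3A : (Nat.ble 2 2 || memI QGt2 0 1 257) = true := by decide +kernel

theorem mGt3B : (Nat.ble 1 2 || memI QGt2 0 1 1) = true := by decide +kernel

/-- **the phase 3** -/
theorem cGt3 : Dj CAGt CBGt true PLGt (dnL QGt3) :=
  Dj.rawP vokAGt vokBGt mclAGt mclBGt mkoGt wfpGt cGt2 mGt3A mGt3B (by norm_num) tGt3 kGt3 lenGt zGt3 bGt3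

end EF18.P80
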