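import Pool.Agent.Lib.MP_ef18bd_co.R80T.P4

/-!
# Phase 4: closed patterns
-/

namespace EF18.P80

set_option linter.defProp false

def jGt4_0 : j0F QGt3 BGt4 9 0
  0x80004903002343000043008e81015f43015ec3015e83015e43 = true := by
  decide +kernel

end EF18.P80
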