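import Pool.Agent.Lib.MP_ef18bd_co.R80T.C3
import Pool.Agent.Lib.MP_ef18bd_co.R80T.P4x0
import Pool.Agent.Lib.MP_ef18bd_co.R80T.P4x1
import Pool.Agent.Lib.MP_ef18bd_co.R80T.P4x2
import Pool.Agent.Lib.MP_ef18bd_co.R80T.P4x3
import Pool.Agent.Lib.MP_ef18bd_co.R80T.P4x4
import Pool.Agent.Lib.MP_ef18bd_co.R80T.P4j0
import Pool.Agent.Lib.MP_ef18bd_co.R80T.P4r0
import Pool.Agent.Lib.MP_ef18bd_co.R80T.P4k0

/-!
# Phase 4
-/

namespace EF18.P80

theorem aGt4 : ∀ i < 1735, Val (stD (dnL QGt3) SGt4) (prc BGt4 i) := by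
  have j0 := ents_zeroF QGt3 SGt4 BGt4
  have j1 := ents_dnF (k := 9) j0 jGt4_0 rfl
  have h0 := j1
  have h1 := wGt4_0_0 h0
  have h2 := wGt4_0_1 h1
  have h3 := wGt4_0_2 h2
  have h4 := wGt4_0_3 h3
  have h5 := wGt4_0_4 h4
  have h6 := wGt4_0_5 h5
  have h7 := wGt4_0_6 h6
  have h8 := wGt4_0_7 h7
  have h9 := wGt4_0_8 h8
  have h10 := wGt4_1_0 h9
  have h11 := wGt4_1_1 h10
  have h12 := wGt4_1_2 h11
  have h13 := wGt4_1_3 h12
  have h14 := wGt4_1_4 h13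
  have h15 := wGt4_1_5 h14
  have h16 := wGt4_1_6 h15
  have h17 := wGt4_1_7 h16
  have h18 := wGt4_1_8 h17
  have h19 := wGt4_1_9 h18
  have h20 := wGt4_1_10 h19
  have h21 := wGt4_1_11 h20
  have h22 := wGt4_2_0 h21
  have h23 := wGt4_2_1 h22
  have h24 := wGt4_2_2 h23
  have h25 := wGt4_2_3 h24
  have h26 := wGt4_2_4 h25
  have h27 := wGt4_2_5 h26
  have h28 := wGt4_2_6 h27
  have h29 := wGt4_2_7 h28
  have h30 := wGt4_2_8 h29
  have h31 := wGt4_2_9 h30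
  have h32 := wGt4_2_10 h31
  have h33 := wGt4_2_11 h32
  have h34 := wGt4_2_12 h33
  have h35 := wGt4_2_13 h34
  have h36 := wGt4_3_0 h35
  have h37 := wGt4_3_1 h36
  have h38 := wGt4_3_2 h37
  have h39 := wGt4_3_3 h38
  have h40 := wGt4_3_4 h39
  have h41 := wGt4_3_5 h40
  have h42 := wGt4_3_6 h41
  have h43 := wGt4_3_7 h42
  have h44 := wGt4_3_8 h43
  have h45 := wGt4_3_9 h44
  have h46 := wGt4_3_10 h45
  have h47 := wGt4_3_11 h46
  have h48 := wGt4_3_12 h47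
  have h49 := wGt4_3_13 h48
  have h50 := wGt4_3_14 h49
  have h51 := wGt4_4_0 h50
  have h52 := wGt4_4_1 h51
  have h53 := wGt4_4_2 h52
  have h54 := wGt4_4_3 h53
  have h55 := wGt4_4_4 h54
  have h56 := wGt4_4_5 h55
  have h57 := wGt4_4_6 h56
  have h58 := wGt4_4_7 h57
  have h59 := wGt4_4_8 h58
  have h60 := wGt4_4_9 h59
  have h61 := wGt4_4_10 h60
  have h62 := wGt4_4_11 h61
  have h63 := wGt4_4_12 h62
  have h64 := wGt4_4_13 h63
  have h65 := wGt4_4_14 h64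
  have h66 := wGt4_4_15 h65
  have h67 := wGt4_4_16 h66
  have h68 := wGt4_4_17 h67
  have h69 := wGt4_4_18 h68
  have h70 := wGt4_4_19 h69
  have h71 := wGt4_4_20 h70
  have h72 := wGt4_4_21 h71
  exact h72

theorem bGt4 : RtI (okB 1 true) (stD (dnL QGt3) SGt4) RBGt4 935 := by
  have h0 := rtI_zero (okB 1 true) (stD (dnL QGt3) SGt4) RBGt4
  have h1 := uGt4 aGt4 h0 oGt4_0_0 (show 0 + 25 = 25 from rfl)
  have h2 := uGt4 aGt4 h1 oGt4_0_1 (show 25 + 25 = 50 from rfl)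
  have h3 := uGt4 aGt4 h2 oGt4_0_2 (show 50 + 25 = 75 from rfl)
  have h4 := uGt4 aGt4 h3 oGt4_0_3 (show 75 + 25 = 100 from rfl)
  have h5 := uGt4 aGt4 h4 oGt4_0_4 (show 100 + 25 = 125 from rfl)
  have h6 := uGt4 aGt4 h5 oGt4_0_5 (show 125 + 25 = 150 from rfl)
  have h7 := uGt4 aGt4 h6 oGt4_0_6 (show 150 + 25 = 175 from rfl)
  have h8 := uGt4 aGt4 h7 oGt4_0_7 (show 175 + 25 = 200 from rfl)
  have h9 := uGt4 aGt4 h8 oGt4_0_8 (show 200 + 25 = 225 from rfl)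
  have h10 := uGt4 aGt4 h9 oGt4_0_9 (show 225 + 25 = 250 from rfl)
  have h11 := uGt4 aGt4 h10 oGt4_0_10 (show 250 + 25 = 275 from rfl)
  have h12 := uGt4 aGt4 h11 oGt4_0_11 (show 275 + 25 = 300 from rfl)
  have h13 := uGt4 aGt4 h12 oGt4_0_12 (show 300 + 25 = 325 from rfl)
  have h14 := uGt4 aGt4 h13 oGt4_0_13 (show 325 + 25 = 350 from rfl)
  have h15 := uGt4 aGt4 h14 oGt4_0_14 (show 350 + 25 = 375 from rfl)
  have h16 := uGt4 aGt4 h15 oGt4_0_15 (show 375 + 25 = 400 from rfl)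
  have h17 := uGt4 aGt4 h16 oGt4_0_16 (show 400 + 25 = 425 from rfl)
  have h18 := uGt4 aGt4 h17 oGt4_0_17 (show 425 + 25 = 450 from rfl)
  have h19 := uGt4 aGt4 h18 oGt4_0_18 (show 450 + 25 = 475 from rfl)
  have h20 := uGt4 aGt4 h19 oGt4_0_19 (show 475 + 25 = 500 from rfl)
  have h21 := uGt4 aGt4 h20 oGt4_0_20 (show 500 + 25 = 525 from rfl)
  have h22 := uGt4 aGt4 h21 oGt4_0_21 (show 525 + 25 = 550 from rfl)
  have h23 := uGt4 aGt4 h22 oGt4_0_22 (show 550 + 25 = 575 from rfl)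
  have h24 := uGt4 aGt4 h23 oGt4_0_23 (show 575 + 25 = 600 from rfl)
  have h25 := uGt4 aGt4 h24 oGt4_0_24 (show 600 + 25 = 625 from rfl)
  have h26 := uGt4 aGt4 h25 oGt4_0_25 (show 625 + 25 = 650 from rfl)
  have h27 := uGt4 aGt4 h26 oGt4_0_26 (show 650 + 25 = 675 from rfl)
  have h28 := uGt4 aGt4 h27 oGt4_0_27 (show 675 + 25 = 700 from rfl)
  have h29 := uGt4 aGt4 h28 oGt4_0_28 (show 700 + 25 = 725 from rfl)
  have h30 := uGt4 aGt4 h29 oGt4_0_29 (show 725 + 25 = 750 from rfl)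
  have h31 := uGt4 aGt4 h30 oGt4_0_30 (show 750 + 25 = 775 from rfl)
  have h32 := uGt4 aGt4 h31 oGt4_0_31 (show 775 + 25 = 800 from rfl)
  have h33 := uGt4 aGt4 h32 oGt4_0_32 (show 800 + 25 = 825 from rfl)
  have h34 := uGt4 aGt4 h33 oGt4_0_33 (show 825 + 25 = 850 from rfl)
  have h35 := uGt4 aGt4 h34 oGt4_0_34 (show 850 + 25 = 875 from rfl)
  have h36 := uGt4 aGt4 h35 oGt4_0_35 (show 875 + 25 = 900 from rfl)
  have h37 := uGt4 aGt4 h36 oGt4_0_36 (show 900 + 25 = 925 from rfl)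
  have h38 := uGt4 aGt4 h37 oGt4_0_37 (show 925 + 10 = 935 from rfl)
  exact h38

theorem tGt4 : (TGt4.all okJ) = true := by decide +kernel

theorem pGt4_0 : CkP QGt3 (4, 0x13110c1917061405030e0b09)
    [2, 3, 0, 0, 0] 16 := by
  have h0 := ckP_zero QGt3 (4, 0x13110c1917061405030e0b09)
    [2, 3, 0, 0, 0]
  have h1 := ckP_step (k := 16) h0 kGt4_0c0 rfl
  exact h1

theorem pGt4_1 : CkP QGt3 (4, 0x13110a191704011403010e09)
    [3, 2, 1, 0] 8 := by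
  have h0 := ckP_zero QGt3 (4, 0x13110a191704011403010e09)
    [3, 2, 1, 0]
  have h1 := ckP_step (k := 8) h0 kGt4_1c0 rfl
  exact h1

theorem pGt4_2 : CkP QGt3 (6, 0x19130c17100b251f06231c05201b03140f09)
    [3, 2, 4, 0, 0, 0, 0] 64 := by
  have h0 := ckP_zero QGt3 (6, 0x19130c17100b251f06231c05201b03140f09)
    [3, 2, 4, 0, 0, 0, 0]
  have h1 := ckP_step (k := 47) h0 kGt4_2c0 rfl
  have h2 := ckP_step (k := 59) h1 kGt4_2c1 rfl
  have h3 := ckP_step (k := 62) h2 kGt4_2c2 rfl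
  have h4 := ckP_step (k := 63) h3 kGt4_2c3 rfl
  have h5 := ckP_step (k := 64) h4 kGt4_2c4 rfl
  exact h5

theorem pGt4_3 : CkP QGt3 (6, 0x19120d16110b251e07221d05211b03150f09)
    [7, 6, 5, 4, 0, 0, 0, 0] 128 := by
  have h0 := ckP_zero QGt3 (6, 0x19120d16110b251e07221d05211b03150f09)
    [7, 6, 5, 4, 0, 0, 0, 0]
  have h1 := ckP_step (k := 128) h0 kGt4_3c0 rfl
  exact h1

theorem kGt4 : PpI QGt3 1 TGt4 CAGt CBGt 4 := by
  have h0 := ppI_zero QGt3 1 TGt4 CAGt CBGt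
  have h1 := ppI_stepV (k' := 1) (q := (4, 0x13110c1917061405030e0b09)) h0 rfl kGt4_0r pGt4_0 kGt4_0m rfl
  have h2 := ppI_stepV (k' := 2) (q := (4, 0x13110a191704011403010e09)) h1 rfl kGt4_1r pGt4_1 kGt4_1m rfl
  have h3 := ppI_stepV (k' := 3) (q := (6, 0x19130c17100b251f06231c05201b03140f09)) h2 rfl kGt4_2r pGt4_2 kGt4_2m rfl
  have h4 := ppI_stepV (k' := 4) (q := (6, 0x19120d16110b251e07221d05211b03150f09)) h3 rfl kGt4_3r pGt4_3 kGt4_3m rfl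
  exact h4

theorem zGt4 : (!false || allK QGt3 (fun _ => true) (nzq CBGt)
  0) = true := by decide +kernel

theorem mGt4A : (Nat.ble 2 1 || memI QGt3 0 1 257) = true := by decide +kernel

theorem mGt4B : (Nat.ble 1 1 || memI QGt3 0 1 1) = true := by decide +kernel

/-- **the phase 4** -/
theorem cGt4 : Dj CAGt CBGt true PLGt (dnL QGt4) :=
  Dj.rawP vokAGt vokBGt mclAGt mclBGt mkoGt wfpGt cGt3 mGt4A mGt4B (by norm_num) tGt4 kGt4 lenGt zGt4 bGt4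

end EF18.P80
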