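import Pool.Agent.Lib.MP_ef18bd_co.R80T.P5

/-!
# Phase 5: closed patterns
-/

namespace EF18.P80

set_option linter.defProp false

def jGt5_0 : j0F QGt4 BGt5 100 0
  0xb24000b18000b14000b10000b0c000b04000b00000afc000af8000af4000af0000aec000ae8000ae4000ae0000adc000ad8000ad4000ad0000acc000ac8000ac4000ac0000abc000ab8000aa4000aa0000a88000a84000a80000a7c000a78000a74000a70000a6c000a68000a64000a60000a5c000a58000a54000a50000a4c000a48000a44000a40000a3c000a38000a34000a30000a2c000a28000a24000a20000a1c000a18000a140009c40009bc0009ac00098c0009880009840008cc0008b80006e80006d00006c00006ac00069400068400064c0006180005c80005c40005a80005a40005a000059c00059400057c0005440005400005240005040004e00004dc0004d80004d00003f40003ac00038c0003700002280002240001cc0001c80001c400017c0002344 = true := by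
  decide +kernel

def jGt5_1 : j0F QGt4 BGt5 70 100
  0x3c000008000000000e90000e8c000e88000e84000e80000e7c000e78000e74000e60000e5c000e4c000e20000e10000df8000dec000de8000da8000da0000d94000d6c000d60000d5c000d58000d54000d48000d28000d14000cf8000ce0000cd8000cd4000cd0000ccc000cc8000cc4000cc0000cbc000cb8000c98000c94000c8c000c80000c7c000c78000c74000c70000c6c000c64000c60000c5c000c58000c54000c50000c4c000c48000c44000c40000c3c000c38000c30000c2c000bd0000b50000b48000b44000b40000b3c0 = true := by
  decide +kernel

end EF18.P80
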