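import Pool.Agent.Lib.MP_ef18bd_co.R80T.C4
import Pool.Agent.Lib.MP_ef18bd_co.R80T.P5x0
import Pool.Agent.Lib.MP_ef18bd_co.R80T.P5j0
import Pool.Agent.Lib.MP_ef18bd_co.R80T.P5r0
import Pool.Agent.Lib.MP_ef18bd_co.R80T.P5k0

/-!
# Phase 5
-/

namespace EF18.P80

theorem aGt5 : ∀ i < 321, Val (stD (dnL QGt4) SGt5) (prc BGt5 i) := by
  have j0 := ents_zeroF QGt4 SGt5 BGt5
  have j1 := ents_dnF (k := 100) j0 jGt5_0 rfl
  have j2 := ents_dnF (k := 170) j1 jGt5_1 rfl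
  have h0 := j2
  have h1 := wGt5_0_0 h0
  have h2 := wGt5_0_1 h1
  have h3 := wGt5_0_2 h2
  have h4 := wGt5_0_3 h3
  have h5 := wGt5_0_4 h4
  have h6 := wGt5_0_5 h5
  have h7 := wGt5_0_6 h6
  exact h7

theorem bGt5 : RtI (okB 1 true) (stD (dnL QGt4) SGt5) RBGt5 78 := by
  have h0 := rtI_zero (okB 1 true) (stD (dnL QGt4) SGt5) RBGt5
  have h1 := uGt5 aGt5 h0 oGt5_0_0 (show 0 + 25 = 25 from rfl)
  have h2 := uGt5 aGt5 h1 oGt5_0_1 (show 25 + 25 = 50 from rfl)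
  have h3 := uGt5 aGt5 h2 oGt5_0_2 (show 50 + 25 = 75 from rfl)
  have h4 := uGt5 aGt5 h3 oGt5_0_3 (show 75 + 3 = 78 from rfl)
  exact h4

theorem tGt5 : (TGt5.all okJ) = true := by decide +kernel

theorem pGt5_0 : CkP QGt4 (4, 0x13110c1917061405030e0b09)
    [2, 3, 0, 0, 0] 16 := by
  have h0 := ckP_zero QGt4 (4, 0x13110c1917061405030e0b09)
    [2, 3, 0, 0, 0]
  have h1 := ckP_step (k := 16) h0 kGt5_0c0 rfl
  exact h1

theorem pGt5_1 : CkP QGt4 (4, 0x13110a191704011403010e09)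
    [3, 2, 1, 0] 8 := by
  have h0 := ckP_zero QGt4 (4, 0x13110a191704011403010e09)
    [3, 2, 1, 0]
  have h1 := ckP_step (k := 8) h0 kGt5_1c0 rfl
  exact h1

theorem pGt5_2 : CkP QGt4 (6, 0x19130c17100b251f06231c05201b03140f09)
    [3, 2, 0, 0, 0, 0, 0] 64 := by
  have h0 := ckP_zero QGt4 (6, 0x19130c17100b251f06231c05201b03140f09)
    [3, 2, 0, 0, 0, 0, 0]
  have h1 := ckP_step (k := 47) h0 kGt5_2c0 rfl
  have h2 := ckP_step (k := 59) h1 kGt5_2c1 rfl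
  have h3 := ckP_step (k := 62) h2 kGt5_2c2 rfl
  have h4 := ckP_step (k := 63) h3 kGt5_2c3 rfl
  have h5 := ckP_step (k := 64) h4 kGt5_2c4 rfl
  exact h5

theorem pGt5_3 : CkP QGt4 (6, 0x19120d16110b251e07221d05211b03150f09)
    [7, 6, 5, 4, 0, 0, 0, 0] 128 := by
  have h0 := ckP_zero QGt4 (6, 0x19120d16110b251e07221d05211b03150f09)
    [7, 6, 5, 4, 0, 0, 0, 0]
  have h1 := ckP_step (k := 128) h0 kGt5_3c0 rfl
  exact h1

theorem kGt5 : PpI QGt4 1 TGt5 CAGt CBGt 4 := by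
  have h0 := ppI_zero QGt4 1 TGt5 CAGt CBGt
  have h1 := ppI_stepV (k' := 1) (q := (4, 0x13110c1917061405030e0b09)) h0 rfl kGt5_0r pGt5_0 kGt5_0m rfl
  have h2 := ppI_stepV (k' := 2) (q := (4, 0x13110a191704011403010e09)) h1 rfl kGt5_1r pGt5_1 kGt5_1m rfl
  have h3 := ppI_stepV (k' := 3) (q := (6, 0x19130c17100b251f06231c05201b03140f09)) h2 rfl kGt5_2r pGt5_2 kGt5_2m rfl
  have h4 := ppI_stepV (k' := 4) (q := (6, 0x19120d16110b251e07221d05211b03150f09)) h3 rfl kGt5_3r pGt5_3 kGt5_3m rfl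
  exact h4

theorem zGt5 : (!false || allK QGt4 (fun _ => true) (nzq CBGt)
  0) = true := by decide +kernel

theorem mGt5A : (Nat.ble 2 1 || memI QGt4 1 1 257) = true := by decide +kernel

theorem mGt5B : (Nat.ble 1 1 || memI QGt4 0 1 1) = true := by decide +kernel

/-- **the phase 5** -/
theorem cGt5 : Dj CAGt CBGt true PLGt (dnL QGt5) :=
  Dj.rawP vokAGt vokBGt mclAGt mclBGt mkoGt wfpGt cGt4 mGt5A mGt5B (by norm_num) tGt5 kGt5 lenGt zGt5 bGt5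

end EF18.P80
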