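import Pool.Agent.Lib.MP_ef18bd_co.R80T.P6

/-!
# Phase 6: closed patterns
-/

namespace EF18.P80

set_option linter.defProp false

def jGt6_0 : j0F QGt5 BGt6 100 0
  0x67410067010066c10066810066410066010065c10065810065410065010064c1006481006441006181005f81005e81005e41005e01005d41005cc1005b81005b410058010057c10057810057410057010055410054410051c1000740004d810006c0004cc1004c81000680000640004c41004c01004bc1004b810049410049010048c10046410045c10045410042c10040c1003fc10005c0003ec1003e81003d41003ac10037410036010035c10034810034410033010032810031c1003081003041002b410026410026010025c10025810024810023c10023010022c10003c00003800022010021c1002181000340002141002101001fc1000300001e410002c0001e01001dc1001c01001481001401001301001181001141001081001041003945001245000ac2008e83 = true := by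
  decide +kernel

def jGt6_1 : j0F QGt5 BGt6 100 100
  0x9dc1009d41009cc1000d40000d00009bc1009b81009b41009b01009ac10099410099010098810098410098010097c1009781000cc00097410097010096c10096410096010095c10095810095410095010094c10094810094410094010093c10093410092c10092410092010091c1009081009041008dc1008d41008d01008cc1008c41008c01008bc1000c40008801008781000bc00085c10085810085410083810083410083010081010080c1008081007dc1007d81007c41007bc1007b81007ac1007a810079c10079810079010078c10078810078410078010077c10077810077410077010076c1007681007641007601007481007181007081006f01006ec1006e01006dc1006d81006d41000ac0006b41006a81006a410069410069010068c100aa01006881006801 = true := by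
  decide +kernel

def jGt6_2 : j0F QGt5 BGt6 100 200
  0xc7c100c74100c681000f4000c641000f0000c48100c38100c34100c30100c2c100c28100c24100c20100c1c100c18100c14100c10100c0c100c08100c04100c00100bfc100bf8100bf4100bf0100bec100be8100be4100be0100bdc100bd8100bd4100bd0100bcc100bc8100bc4100bc0100bbc100bb8100bb4100bb0100bac100ba8100ba4100ba0100b9c100b98100b94100b90100b8c100b88100b84100b80100b7c100b78100b74100b70100b6c100b68100b64100b60100b5c100b58100b541000ec000b4c100b48100b441000e8000b3c100b38100b34100b301000e4000b2c100b28100b20100b1c1000e0000b10100b08100b04100b001000dc000af8100af0100ab4100ab0100aac100aa8100a9c100a98100a94100a90100a8c100a84100a10100a0c1009f41 = true := by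
  decide +kernel

def jGt6_3 : j0F QGt5 BGt6 84 300
  0x3c100030100000100e70100e6c100e68100e64100e58100e50100e48100e40100e3c100e38100e34100e30100134000e2c100130000e2810012c000e24100e1c100e18100e0c100e08100e04100e00100dd0100dcc100dc8100dc0100dac100da0100d9c100d98100d94100d8c100118000114000d88100d6c100d64100110000d50100d4c100d44100d38100d34100d30100d28100d20100d1c100d18100d14100d10100d0c100d08100d00100cfc100cf8100cf4100cf0100cec100ce8100ce4100ce0100cdc10010c000108000104000cb4100cb0100cac100ca8100ca4100ca0100100000c9c1000fc000c90100c88100c841000f80 = true := by
  decide +kernel

end EF18.P80
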