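import Pool.Agent.Lib.MP_ef18bd_co.R80T.C5
import Pool.Agent.Lib.MP_ef18bd_co.R80T.P6x0
import Pool.Agent.Lib.MP_ef18bd_co.R80T.P6x1
import Pool.Agent.Lib.MP_ef18bd_co.R80T.P6x2
import Pool.Agent.Lib.MP_ef18bd_co.R80T.P6j0
import Pool.Agent.Lib.MP_ef18bd_co.R80T.P6r0
import Pool.Agent.Lib.MP_ef18bd_co.R80T.P6k0

/-!
# Phase 6
-/

namespace EF18.P80

theorem aGt6 : ∀ i < 1028, Val (stD (dnL QGt5) SGt6) (prc BGt6 i) := by
  have j0 := ents_zeroF QGt5 SGt6 BGt6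
  have j1 := ents_dnF (k := 100) j0 jGt6_0 rfl
  have j2 := ents_dnF (k := 200) j1 jGt6_1 rfl
  have j3 := ents_dnF (k := 300) j2 jGt6_2 rfl
  have j4 := ents_dnF (k := 384) j3 jGt6_3 rfl
  have h0 := j4
  have h1 := wGt6_0_0 h0
  have h2 := wGt6_0_1 h1
  have h3 := wGt6_0_2 h2
  have h4 := wGt6_0_3 h3
  have h5 := wGt6_0_4 h4
  have h6 := wGt6_0_5 h5
  have h7 := wGt6_0_6 h6
  have h8 := wGt6_0_7 h7
  have h9 := wGt6_0_8 h8
  have h10 := wGt6_0_9 h9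
  have h11 := wGt6_1_0 h10
  have h12 := wGt6_1_1 h11
  have h13 := wGt6_1_2 h12
  have h14 := wGt6_1_3 h13
  have h15 := wGt6_1_4 h14
  have h16 := wGt6_1_5 h15
  have h17 := wGt6_1_6 h16
  have h18 := wGt6_1_7 h17
  have h19 := wGt6_1_8 h18
  have h20 := wGt6_1_9 h19
  have h21 := wGt6_1_10 h20
  have h22 := wGt6_1_11 h21
  have h23 := wGt6_1_12 h22
  have h24 := wGt6_1_13 h23
  have h25 := wGt6_1_14 h24
  have h26 := wGt6_1_15 h25
  have h27 := wGt6_2_0 h26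
  have h28 := wGt6_2_1 h27
  exact h28

theorem bGt6 : RtI (okB 1 true) (stD (dnL QGt5) SGt6) RBGt6 311 := by
  have h0 := rtI_zero (okB 1 true) (stD (dnL QGt5) SGt6) RBGt6
  have h1 := uGt6 aGt6 h0 oGt6_0_0 (show 0 + 25 = 25 from rfl)
  have h2 := uGt6 aGt6 h1 oGt6_0_1 (show 25 + 25 = 50 from rfl)
  have h3 := uGt6 aGt6 h2 oGt6_0_2 (show 50 + 25 = 75 from rfl)
  have h4 := uGt6 aGt6 h3 oGt6_0_3 (show 75 + 25 = 100 from rfl)
  have h5 := uGt6 aGt6 h4 oGt6_0_4 (show 100 + 25 = 125 from rfl)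
  have h6 := uGt6 aGt6 h5 oGt6_0_5 (show 125 + 25 = 150 from rfl)
  have h7 := uGt6 aGt6 h6 oGt6_0_6 (show 150 + 25 = 175 from rfl)
  have h8 := uGt6 aGt6 h7 oGt6_0_7 (show 175 + 25 = 200 from rfl)
  have h9 := uGt6 aGt6 h8 oGt6_0_8 (show 200 + 25 = 225 from rfl)
  have h10 := uGt6 aGt6 h9 oGt6_0_9 (show 225 + 25 = 250 from rfl)
  have h11 := uGt6 aGt6 h10 oGt6_0_10 (show 250 + 25 = 275 from rfl)
  have h12 := uGt6 aGt6 h11 oGt6_0_11 (show 275 + 25 = 300 from rfl)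
  have h13 := uGt6 aGt6 h12 oGt6_0_12 (show 300 + 11 = 311 from rfl)
  exact h13

theorem tGt6 : (TGt6.all okJ) = true := by decide +kernel

theorem pGt6_0 : CkP QGt5 (4, 0x13110c1917061405030e0b09)
    [2, 3, 0, 0, 0] 16 := by
  have h0 := ckP_zero QGt5 (4, 0x13110c1917061405030e0b09)
    [2, 3, 0, 0, 0]
  have h1 := ckP_step (k := 16) h0 kGt6_0c0 rfl
  exact h1

theorem pGt6_1 : CkP QGt5 (4, 0x13110a191704011403010e09)
    [3, 2, 0, 0] 8 := by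
  have h0 := ckP_zero QGt5 (4, 0x13110a191704011403010e09)
    [3, 2, 0, 0]
  have h1 := ckP_step (k := 8) h0 kGt6_1c0 rfl
  exact h1

theorem pGt6_2 : CkP QGt5 (6, 0x19130c17100b251f06231c05201b03140f09)
    [3, 2, 0, 0, 0, 0, 0] 64 := by
  have h0 := ckP_zero QGt5 (6, 0x19130c17100b251f06231c05201b03140f09)
    [3, 2, 0, 0, 0, 0, 0]
  have h1 := ckP_step (k := 47) h0 kGt6_2c0 rfl
  have h2 := ckP_step (k := 59) h1 kGt6_2c1 rfl
  have h3 := ckP_step (k := 62) h2 kGt6_2c2 rfl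
  have h4 := ckP_step (k := 63) h3 kGt6_2c3 rfl
  have h5 := ckP_step (k := 64) h4 kGt6_2c4 rfl
  exact h5

theorem pGt6_3 : CkP QGt5 (6, 0x19120d16110b251e07221d05211b03150f09)
    [7, 6, 5, 4, 0, 0, 0, 0] 128 := by
  have h0 := ckP_zero QGt5 (6, 0x19120d16110b251e07221d05211b03150f09)
    [7, 6, 5, 4, 0, 0, 0, 0]
  have h1 := ckP_step (k := 128) h0 kGt6_3c0 rfl
  exact h1

theorem kGt6 : PpI QGt5 1 TGt6 CAGt CBGt 4 := by
  have h0 := ppI_zero QGt5 1 TGt6 CAGt CBGt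
  have h1 := ppI_stepV (k' := 1) (q := (4, 0x13110c1917061405030e0b09)) h0 rfl kGt6_0r pGt6_0 kGt6_0m rfl
  have h2 := ppI_stepV (k' := 2) (q := (4, 0x13110a191704011403010e09)) h1 rfl kGt6_1r pGt6_1 kGt6_1m rfl
  have h3 := ppI_stepV (k' := 3) (q := (6, 0x19130c17100b251f06231c05201b03140f09)) h2 rfl kGt6_2r pGt6_2 kGt6_2m rfl
  have h4 := ppI_stepV (k' := 4) (q := (6, 0x19120d16110b251e07221d05211b03150f09)) h3 rfl kGt6_3r pGt6_3 kGt6_3m rfl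
  exact h4

theorem zGt6 : (!false || allK QGt5 (fun _ => true) (nzq CBGt)
  0) = true := by decide +kernel

theorem mGt6A : (Nat.ble 2 1 || memI QGt5 2 1 257) = true := by decide +kernel

theorem mGt6B : (Nat.ble 1 1 || memI QGt5 0 1 1) = true := by decide +kernel

/-- **the phase 6** -/
theorem cGt6 : Dj CAGt CBGt true PLGt (dnL QGt6) :=
  Dj.rawP vokAGt vokBGt mclAGt mclBGt mkoGt wfpGt cGt5 mGt6A mGt6B (by norm_num) tGt6 kGt6 lenGt zGt6 bGt6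

end EF18.P80
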