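import Pool.Agent.Lib.MP_ef18bd_co.R80T.P7

/-!
# Phase 7: closed patterns
-/

namespace EF18.P80

set_option linter.defProp false

def jGt7_0 : j0F QGt6 BGt7 100 0
  0x2542000ec00025020024c2002482002442002302000e000022020021c2002042002002000d80000301000d40001f82001f02000c40000c00000bc00002c1000281000b80001dc2001d82000241001d02000a000009c0000980001bc2000940001b82000900001b42001b020001c1001a82001a42001a020019c20018c20018820018420018020007c00017c20007800007400017420001810007000001410016c20006800016820016420006400006000016020015c20015820015420015020014c20014820014420005c00005800014020013c20013820005400001010005000004c00013420004800012c20004000003c00012420003800012020011820003400003000011420011020010c20002c0001082004906003786003346003086001d46001606000006008e84 = true := by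
  decide +kernel

def jGt7_1 : j0F QGt6 BGt7 100 100
  0x5002004fc20022c0004f82004f42004f02004ec2004e82002280004e42000701004dc2004d82004d42004d02004a42004a020049820021800048c2004602004582001f40004382004342001e80001e00004282004102001dc0004002003f02001cc0001c80003d82001c00003ac20037020019c00036c20019800035820018c00018800035020034c20018000017800034020033c20033820033420017400032c2001700001680001640003242001580001500003102003002002fc20014800013c0001380001340002e42002e02002dc2002d82002d02001240002c42001200002c02000481002bc2001180002a82002a420029820010800029420029020028c20028820028420028020027c2002782001000000fc0000f80002742000f400027020026c2002682000f00 = true := by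
  decide +kernel

def jGt7_2 : j0F QGt6 BGt7 100 200
  0x6942002e0000aa42002dc0002d80000a41002d40006842002d000068020067c2006782002cc00064c2006402002c800063c2002c400063820063420063020062c20009c1002c00002bc0006282006242002b80002b400061c2000981006082006002005fc2005f42005f02002a000009010029c0005ec2002980002940002900005dc2005d820028c0005d02002880002740002700005ac20026800026400026000008410025c00059820059420059020058c20058820058420008010025800057420025400056c20025000056820056420056020055c20055820024c00055020054c20054820054420024800024400053c20024000053820053420053020007c10052c20007810052820052020023c00051c20023800051820051420051020023400050c2005082002300 = true := by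
  decide +kernel

def jGt7_3 : j0F QGt6 BGt7 100 300
  0x87c2008782003a80008742003a40000bc10087020086c20039c00039000083c20038000037c0003780003740003700000b810036c0003680003640003340003300007d02007cc20032c0003280007c82007c42007c02007bc2007b82007b42000b41007b02003240007ac2003200007a42007a020079c20031c00031800079420031400079020031000077020075c20075820075420075020074c2007482007442000b010074020030c00030800073c20073820073420073020072c20072820072420072020071c20071820030400071420071020070c2003000002fc0002f80007042007002006fc2002f40006f82006f42006e82006e42002f00002ec0006dc2006cc2002e80006c82006c42006bc2006b82006b42006b02006ac2006a82002e40006a020069c2006982 = true := by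
  decide +kernel

def jGt7_4 : j0F QGt6 BGt7 100 400
  0x47800047400047000046c00011c100d98200468000d94200d90200464000d84200d80200d7c200d78200d74200d70200d6c200d68200460000d6420045c000d40200d3c200458000d2c200454000d28200d2420045000044c000448000d18200d14200d10200444000440000d0420043c00043800043400043000042c0004280000d8100a84200a08200a04200424000420000a002009fc2009f820041c0009f02009ec2009e82009e42009e02004180009dc2004140009d82009d02004100009cc2009c82009c02009a82009a42009a020099c20099820040c0004080009682004040004000003fc00093c2003f800093820093420093020092c20092820092420092020091c20091820091420091020090c2009082009042009002003dc00088c2008882003b00003ac0 = true := by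
  decide +kernel

def jGt7_5 : j0F QGt6 BGt7 53 500
  0x1000142000002004d80004d40004d0000e682004cc0004c8000e54200e502004c40004c0000e442004bc0004b80004b40004b0000e142004ac000e042004a80004a40004a0000dfc20049c000df4200df0200128100de8200124100de4200498000de0200ddc200494000dd8200dd4200120100490000dc4200dbc200db8200db420048c000488000db0200dac200484000480000da8200da420047c0 = true := by
  decide +kernel

end EF18.P80
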