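import Pool.Agent.Lib.MP_ef18bd_co.R80T.C6
import Pool.Agent.Lib.MP_ef18bd_co.R80T.P7x0
import Pool.Agent.Lib.MP_ef18bd_co.R80T.P7x1
import Pool.Agent.Lib.MP_ef18bd_co.R80T.P7x2
import Pool.Agent.Lib.MP_ef18bd_co.R80T.P7j0
import Pool.Agent.Lib.MP_ef18bd_co.R80T.P7r0
import Pool.Agent.Lib.MP_ef18bd_co.R80T.P7k0

/-!
# Phase 7
-/

namespace EF18.P80

theorem aGt7 : ∀ i < 1289, Val (stD (dnL QGt6) SGt7) (prc BGt7 i) := by
  have j0 := ents_zeroF QGt6 SGt7 BGt7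
  have j1 := ents_dnF (k := 100) j0 jGt7_0 rfl
  have j2 := ents_dnF (k := 200) j1 jGt7_1 rfl
  have j3 := ents_dnF (k := 300) j2 jGt7_2 rfl
  have j4 := ents_dnF (k := 400) j3 jGt7_3 rfl
  have j5 := ents_dnF (k := 500) j4 jGt7_4 rfl
  have j6 := ents_dnF (k := 553) j5 jGt7_5 rfl
  have h0 := j6
  have h1 := wGt7_0_0 h0
  have h2 := wGt7_0_1 h1
  have h3 := wGt7_0_2 h2
  have h4 := wGt7_0_3 h3
  have h5 := wGt7_0_4 h4
  have h6 := wGt7_0_5 h5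
  have h7 := wGt7_0_6 h6
  have h8 := wGt7_0_7 h7
  have h9 := wGt7_0_8 h8
  have h10 := wGt7_0_9 h9
  have h11 := wGt7_0_10 h10
  have h12 := wGt7_0_11 h11
  have h13 := wGt7_1_0 h12
  have h14 := wGt7_1_1 h13
  have h15 := wGt7_1_2 h14
  have h16 := wGt7_1_3 h15
  have h17 := wGt7_1_4 h16
  have h18 := wGt7_1_5 h17
  have h19 := wGt7_1_6 h18
  have h20 := wGt7_1_7 h19
  have h21 := wGt7_1_8 h20
  have h22 := wGt7_1_9 h21
  have h23 := wGt7_1_10 h22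
  have h24 := wGt7_1_11 h23
  have h25 := wGt7_1_12 h24
  have h26 := wGt7_1_13 h25
  have h27 := wGt7_1_14 h26
  have h28 := wGt7_1_15 h27
  have h29 := wGt7_1_16 h28
  have h30 := wGt7_2_0 h29
  exact h30

theorem bGt7 : RtI (okB 1 true) (stD (dnL QGt6) SGt7) RBGt7 263 := by
  have h0 := rtI_zero (okB 1 true) (stD (dnL QGt6) SGt7) RBGt7
  have h1 := uGt7 aGt7 h0 oGt7_0_0 (show 0 + 25 = 25 from rfl)
  have h2 := uGt7 aGt7 h1 oGt7_0_1 (show 25 + 25 = 50 from rfl)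
  have h3 := uGt7 aGt7 h2 oGt7_0_2 (show 50 + 25 = 75 from rfl)
  have h4 := uGt7 aGt7 h3 oGt7_0_3 (show 75 + 25 = 100 from rfl)
  have h5 := uGt7 aGt7 h4 oGt7_0_4 (show 100 + 25 = 125 from rfl)
  have h6 := uGt7 aGt7 h5 oGt7_0_5 (show 125 + 25 = 150 from rfl)
  have h7 := uGt7 aGt7 h6 oGt7_0_6 (show 150 + 25 = 175 from rfl)
  have h8 := uGt7 aGt7 h7 oGt7_0_7 (show 175 + 25 = 200 from rfl)
  have h9 := uGt7 aGt7 h8 oGt7_0_8 (show 200 + 25 = 225 from rfl)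
  have h10 := uGt7 aGt7 h9 oGt7_0_9 (show 225 + 25 = 250 from rfl)
  have h11 := uGt7 aGt7 h10 oGt7_0_10 (show 250 + 13 = 263 from rfl)
  exact h11

theorem tGt7 : (TGt7.all okJ) = true := by decide +kernel

theorem pGt7_0 : CkP QGt6 (4, 0x13110c1917061405030e0b09)
    [2, 1, 0, 0, 0] 16 := by
  have h0 := ckP_zero QGt6 (4, 0x13110c1917061405030e0b09)
    [2, 1, 0, 0, 0]
  have h1 := ckP_step (k := 16) h0 kGt7_0c0 rfl
  exact h1

theorem pGt7_1 : CkP QGt6 (4, 0x13110a191704011403010e09)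
    [3, 2, 0, 0] 8 := by
  have h0 := ckP_zero QGt6 (4, 0x13110a191704011403010e09)
    [3, 2, 0, 0]
  have h1 := ckP_step (k := 8) h0 kGt7_1c0 rfl
  exact h1

theorem pGt7_2 : CkP QGt6 (6, 0x19130c17100b251f06231c05201b03140f09)
    [3, 2, 0, 0, 0, 0, 0] 64 := by
  have h0 := ckP_zero QGt6 (6, 0x19130c17100b251f06231c05201b03140f09)
    [3, 2, 0, 0, 0, 0, 0]
  have h1 := ckP_step (k := 47) h0 kGt7_2c0 rfl
  have h2 := ckP_step (k := 59) h1 kGt7_2c1 rfl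
  have h3 := ckP_step (k := 62) h2 kGt7_2c2 rfl
  have h4 := ckP_step (k := 63) h3 kGt7_2c3 rfl
  have h5 := ckP_step (k := 64) h4 kGt7_2c4 rfl
  exact h5

theorem pGt7_3 : CkP QGt6 (6, 0x19120d16110b251e07221d05211b03150f09)
    [7, 6, 5, 4, 0, 0, 0, 0] 128 := by
  have h0 := ckP_zero QGt6 (6, 0x19120d16110b251e07221d05211b03150f09)
    [7, 6, 5, 4, 0, 0, 0, 0]
  have h1 := ckP_step (k := 128) h0 kGt7_3c0 rfl
  exact h1

theorem kGt7 : PpI QGt6 1 TGt7 CAGt CBGt 4 := by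
  have h0 := ppI_zero QGt6 1 TGt7 CAGt CBGt
  have h1 := ppI_stepV (k' := 1) (q := (4, 0x13110c1917061405030e0b09)) h0 rfl kGt7_0r pGt7_0 kGt7_0m rfl
  have h2 := ppI_stepV (k' := 2) (q := (4, 0x13110a191704011403010e09)) h1 rfl kGt7_1r pGt7_1 kGt7_1m rfl
  have h3 := ppI_stepV (k' := 3) (q := (6, 0x19130c17100b251f06231c05201b03140f09)) h2 rfl kGt7_2r pGt7_2 kGt7_2m rfl
  have h4 := ppI_stepV (k' := 4) (q := (6, 0x19120d16110b251e07221d05211b03150f09)) h3 rfl kGt7_3r pGt7_3 kGt7_3m rfl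
  exact h4

theorem zGt7 : (!false || allK QGt6 (fun _ => true) (nzq CBGt)
  0) = true := by decide +kernel

theorem mGt7A : (Nat.ble 2 1 || memI QGt6 3 1 257) = true := by decide +kernel

theorem mGt7B : (Nat.ble 1 1 || memI QGt6 0 1 1) = true := by decide +kernel

/-- **the phase 7** -/
theorem cGt7 : Dj CAGt CBGt true PLGt (dnL QGt7) :=
  Dj.rawP vokAGt vokBGt mclAGt mclBGt mkoGt wfpGt cGt6 mGt7A mGt7B (by norm_num) tGt7 kGt7 lenGt zGt7 bGt7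

end EF18.P80
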