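import Pool.Agent.Lib.MP_ef18bd_co.R80T.P8

/-!
# Phase 8: closed patterns
-/

namespace EF18.P80

set_option linter.defProp false

def jGt8_0 : j0F QGt7 BGt8 100 0
  0xa81001d430018000017c00017800017400017000016c0000202001680001640000a410016000015c00015800015400015000014c00014800014400014000013c0001380001b030013400001c2001300001ac30012c00012800012400012000011c00019830011800011400008c10008810011000019430010c00019030008410008010010800010400010000007c10017c3001783000fc0000f80000f400006c1001703000f00000ec0000e80000e40000e00000dc0000d80000d40000d000014c3001443000cc0000c80000c40000541000c00000441000401000bc0000b800003c1000b40000b00000ac00012830000c2000082000a80000a40000a000009c00009800012030009400011c30009000011830008c0000880000840001143000800000084000ac4000a84 = true := by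
  decide +kernel

def jGt8_1 : j0F QGt7 BGt8 100 100
  0x15c10024000023c00031430015410023800023400030c30014c10022c0001441001401002240002f43002f03002ec3002e83002200002d83002180002140002d430021000012c1002cc3001281002c83002080002c43002c03002040002000002bc3000442001fc0002b03002ac3001f80001f000010c1000402002a83001ec0002a030029c3001e80002943001e400028c3001dc00028830010410027030025030024c3000e410024030023830023430023030022c30003820020c3000dc1002083001d80001d40001d00001cc0001c80001c40001c00001bc0001b80000d01000cc1001f83001f43001b40001b00001ac0001a80000c81001a40001ec3000c41001a00001e830019c0001980001940001900000b41001dc3000b010018c0000ac1001880001d83001840 = true := by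
  decide +kernel

def jGt8_2 : j0F QGt7 BGt8 100 200
  0x49c30049830021810032800048030047c30021010047830032000047430047030046030031c00045c3003140003100002041001fc10030c0001f81001f410045030044c3003000001f010043c3002f00001e81001e41001e01002e00002dc0002d80003f83001d41002d00003e43000582000542003e03000502003dc3003d83001c01002c40002c00002bc0003c83003c43003b43003ac3002b40002ac00039c30039830004c20039430038c3003883001ac1001a81003843001a41003803002a400037c3002a000029c0001a010029400029000028c00028800036c30036830019810036430028400019410036030019010035c30028000035430027c00027400017810026800026400033030032c30025800016c10025000024c00024800024400032030016010031c3 = true := by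
  decide +kernel

def jGt8_3 : j0F QGt7 BGt8 100 300
  0x39010084430038c1003881008403003841003d000036010035c10082c3008283008243003cc0008203003c800081c3003c400035810035410035010081830081430034c1003481003441008043008003007fc3007f830034010033c1007f43003381007f03007ec3007e83007e43003c00007e03007d43003bc0003b80002b01002ac1003b40003b000062030061c3003ac0003a80002a81006143003a40003a00006103002a410039c00039800009820060c30039400060430039000060030038c0003880005f830009420038400038000037c0003780003740003700005e830036c0003680003640003600002841005c830035c0003580003540003500005c43002801005c030027c1002781005bc30034c0002701005b030026c10034800033800033400033000032c0 = true := by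
  decide +kernel

def jGt8_4 : j0F QGt7 BGt8 75 400
  0x34000000000000300a843008fc3008f83004140003f41004100008f43003f01003ec1008f03008ec3008e83008e43008e03003e81008dc30040c0003e41008d83003e01003dc1003d81004080003d41004040003d01008cc3003cc1008c83003c81008b83008b43008b03008ac3008a83008a43008a030089c3003c41000c42008983004000003fc0008943003bc1003f80003b81008903000c02003f40008843003b41003f00003ec0008783003e80003e40000bc2003e00008703008683003dc0003d80008643003a01008603003d400039810085030084c3003941008483 = true := by
  decide +kernel

end EF18.P80
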