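import Pool.Agent.Lib.MP_ef18bd_co.R80T.C7
import Pool.Agent.Lib.MP_ef18bd_co.R80T.P8x0
import Pool.Agent.Lib.MP_ef18bd_co.R80T.P8x1
import Pool.Agent.Lib.MP_ef18bd_co.R80T.P8j0
import Pool.Agent.Lib.MP_ef18bd_co.R80T.P8r0
import Pool.Agent.Lib.MP_ef18bd_co.R80T.P8k0

/-!
# Phase 8
-/

namespace EF18.P80

theorem aGt8 : ∀ i < 810, Val (stD (dnL QGt7) SGt8) (prc BGt8 i) := by
  have j0 := ents_zeroF QGt7 SGt8 BGt8
  have j1 := ents_dnF (k := 100) j0 jGt8_0 rfl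
  have j2 := ents_dnF (k := 200) j1 jGt8_1 rfl
  have j3 := ents_dnF (k := 300) j2 jGt8_2 rfl
  have j4 := ents_dnF (k := 400) j3 jGt8_3 rfl
  have j5 := ents_dnF (k := 475) j4 jGt8_4 rfl
  have h0 := j5
  have h1 := wGt8_0_0 h0
  have h2 := wGt8_0_1 h1
  have h3 := wGt8_0_2 h2
  have h4 := wGt8_0_3 h3
  have h5 := wGt8_0_4 h4
  have h6 := wGt8_0_5 h5
  have h7 := wGt8_0_6 h6
  have h8 := wGt8_0_7 h7
  have h9 := wGt8_0_8 h8
  have h10 := wGt8_0_9 h9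
  have h11 := wGt8_0_10 h10
  have h12 := wGt8_0_11 h11
  have h13 := wGt8_1_0 h12
  have h14 := wGt8_1_1 h13
  have h15 := wGt8_1_2 h14
  exact h15

theorem bGt8 : RtI (okB 1 true) (stD (dnL QGt7) SGt8) RBGt8 64 := by
  have h0 := rtI_zero (okB 1 true) (stD (dnL QGt7) SGt8) RBGt8
  have h1 := uGt8 aGt8 h0 oGt8_0_0 (show 0 + 25 = 25 from rfl)
  have h2 := uGt8 aGt8 h1 oGt8_0_1 (show 25 + 25 = 50 from rfl)
  have h3 := uGt8 aGt8 h2 oGt8_0_2 (show 50 + 14 = 64 from rfl)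
  exact h3

theorem tGt8 : (TGt8.all okJ) = true := by decide +kernel

theorem pGt8_0 : CkP QGt7 (4, 0x13110c1917061405030e0b09)
    [2, 0, 0, 0, 0] 16 := by
  have h0 := ckP_zero QGt7 (4, 0x13110c1917061405030e0b09)
    [2, 0, 0, 0, 0]
  have h1 := ckP_step (k := 16) h0 kGt8_0c0 rfl
  exact h1

theorem pGt8_1 : CkP QGt7 (4, 0x13110a191704011403010e09)
    [3, 2, 0, 0] 8 := by
  have h0 := ckP_zero QGt7 (4, 0x13110a191704011403010e09)
    [3, 2, 0, 0]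
  have h1 := ckP_step (k := 8) h0 kGt8_1c0 rfl
  exact h1

theorem pGt8_2 : CkP QGt7 (6, 0x19130c17100b251f06231c05201b03140f09)
    [3, 0, 0, 0, 0, 0, 0] 64 := by
  have h0 := ckP_zero QGt7 (6, 0x19130c17100b251f06231c05201b03140f09)
    [3, 0, 0, 0, 0, 0, 0]
  have h1 := ckP_step (k := 63) h0 kGt8_2c0 rfl
  have h2 := ckP_step (k := 64) h1 kGt8_2c1 rfl
  exact h2

theorem pGt8_3 : CkP QGt7 (6, 0x19120d16110b251e07221d05211b03150f09)
    [7, 6, 5, 0, 0, 0, 0, 0] 128 := by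
  have h0 := ckP_zero QGt7 (6, 0x19120d16110b251e07221d05211b03150f09)
    [7, 6, 5, 0, 0, 0, 0, 0]
  have h1 := ckP_step (k := 128) h0 kGt8_3c0 rfl
  exact h1

theorem kGt8 : PpI QGt7 1 TGt8 CAGt CBGt 4 := by
  have h0 := ppI_zero QGt7 1 TGt8 CAGt CBGt
  have h1 := ppI_stepV (k' := 1) (q := (4, 0x13110c1917061405030e0b09)) h0 rfl kGt8_0r pGt8_0 kGt8_0m rfl
  have h2 := ppI_stepV (k' := 2) (q := (4, 0x13110a191704011403010e09)) h1 rfl kGt8_1r pGt8_1 kGt8_1m rfl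
  have h3 := ppI_stepV (k' := 3) (q := (6, 0x19130c17100b251f06231c05201b03140f09)) h2 rfl kGt8_2r pGt8_2 kGt8_2m rfl
  have h4 := ppI_stepV (k' := 4) (q := (6, 0x19120d16110b251e07221d05211b03150f09)) h3 rfl kGt8_3r pGt8_3 kGt8_3m rfl
  exact h4

theorem zGt8 : (!true || allK QGt7 (fun _ => true) (nzq CBGt)
  0x100) = true := by decide +kernel

theorem mGt8A : (Nat.ble 2 1 || memI QGt7 4 1 257) = true := by decide +kernel

theorem mGt8B : (Nat.ble 1 1 || memI QGt7 0 1 1) = true := by decide +kernel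

/-- **the phase 8** -/
theorem cGt8 : Dj CAGt CBGt true PLGt (dnL QGt8) :=
  Dj.rawP vokAGt vokBGt mclAGt mclBGt mkoGt wfpGt cGt7 mGt8A mGt8B (by norm_num) tGt8 kGt8 lenGt zGt8 bGt8

end EF18.P80
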