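import Pool.Agent.Lib.MP_ef18bd_co.R80T.P9

/-!
# Phase 9: closed patterns
-/

namespace EF18.P80

set_option linter.defProp false

def jGt9_0 : j0F QGt8 BGt9 100 0
  0x3b840008000007c0003b04003ac4001b42001b02002b41003a84003a44003a04000780000740002b01002a810007000039040006c00006800006400006000005c00029c10037840005800029810037040028c10005400019820005000028410027810004c00018420027410017c20017820027010026c10004800026810026410026010025c10017420004400017020025810025410016c20025010024c10031840023010022c1002281001402002f84000400002ec4002d840003c00003800021c10003400021810003000002c00013020021410002800012c20002400002000020c10020810001c0002b840011c2001fc1001142001102000180001f410010c2002a84001e81001e010028c4002884001042000e820001400023840023040022c4001041000085000ac5 = true := by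
  decide +kernel

def jGt9_1 : j0F QGt8 BGt9 100 100
  0x22420033c10033810022020021c2004ac4004a84000fc0004884002142003241000f80000f40000f00000ec00048440046c4004684000e800020c20046040031c10045c4003181000e40000e00000dc0002082003101002042002002000d80001f42000d40000d00003081003041004484004444002fc1002f81002f41000cc0004404001ec2000c80001e82000c40004304000c00001e42000bc0001e02002ec1002e81004244000b800042040041c4004184000b40002e41004144000b00000ac0000a80002d81004084004044001d82000a40000a00004004002d41003fc4003f84001d42000603003f040009c0001d02000980000940002d01002cc1000900002c81003dc4003d040008c0001c42003cc4002b81001bc2000880003c44001b82000840003c04003bc4 = true := by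
  decide +kernel

def jGt9_2 : j0F QGt8 BGt9 8 200
  0xc0000101004181003bc1003441004b44003401004b04 = true := by
  decide +kernel

end EF18.P80
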