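import Pool.Agent.Lib.MP_ef18bd_co.R80T.P9

/-!
# Phase 9: roots
-/

namespace EF18.P80

set_option linter.defProp false

def oGt9_0_0 : rGt9 0 1
  0x807c7874706c6864605c5854504c4844403c3834302c2824201c1814100c08040051923 = true := by
  decide +kernel

end EF18.P80
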