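import Pool.Agent.Lib.MP_ef18bd_co.R80T.C8
import Pool.Agent.Lib.MP_ef18bd_co.R80T.P9x0
import Pool.Agent.Lib.MP_ef18bd_co.R80T.P9j0
import Pool.Agent.Lib.MP_ef18bd_co.R80T.P9r0
import Pool.Agent.Lib.MP_ef18bd_co.R80T.P9k0

/-!
# Phase 9
-/

namespace EF18.P80

theorem aGt9 : ∀ i < 327, Val (stD (dnL QGt8) SGt9) (prc BGt9 i) := by
  have j0 := ents_zeroF QGt8 SGt9 BGt9
  have j1 := ents_dnF (k := 100) j0 jGt9_0 rfl
  have j2 := ents_dnF (k := 200) j1 jGt9_1 rfl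
  have j3 := ents_dnF (k := 208) j2 jGt9_2 rfl
  have h0 := j3
  have h1 := wGt9_0_0 h0
  have h2 := wGt9_0_1 h1
  have h3 := wGt9_0_2 h2
  have h4 := wGt9_0_3 h3
  have h5 := wGt9_0_4 h4
  exact h5

theorem bGt9 : RtI (okB 1 true) (stD (dnL QGt8) SGt9) RBGt9 1 := by
  have h0 := rtI_zero (okB 1 true) (stD (dnL QGt8) SGt9) RBGt9
  have h1 := uGt9 aGt9 h0 oGt9_0_0 (show 0 + 1 = 1 from rfl)
  exact h1

theorem tGt9 : (TGt9.all okJ) = true := by decide +kernel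

theorem pGt9_0 : CkP QGt8 (4, 0x13110c1917061405030e0b09)
    [2, 0, 0, 0, 0] 16 := by
  have h0 := ckP_zero QGt8 (4, 0x13110c1917061405030e0b09)
    [2, 0, 0, 0, 0]
  have h1 := ckP_step (k := 16) h0 kGt9_0c0 rfl
  exact h1

theorem pGt9_1 : CkP QGt8 (4, 0x13110a191704011403010e09)
    [3, 1, 0, 0] 8 := by
  have h0 := ckP_zero QGt8 (4, 0x13110a191704011403010e09)
    [3, 1, 0, 0]
  have h1 := ckP_step (k := 8) h0 kGt9_1c0 rfl
  exact h1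

theorem pGt9_2 : CkP QGt8 (6, 0x19130c17100b251f06231c05201b03140f09)
    [3, 0, 0, 0, 0, 0, 0] 64 := by
  have h0 := ckP_zero QGt8 (6, 0x19130c17100b251f06231c05201b03140f09)
    [3, 0, 0, 0, 0, 0, 0]
  have h1 := ckP_step (k := 63) h0 kGt9_2c0 rfl
  have h2 := ckP_step (k := 64) h1 kGt9_2c1 rfl
  exact h2

theorem pGt9_3 : CkP QGt8 (6, 0x19120d16110b251e07221d05211b03150f09)
    [7, 6, 0, 0, 0, 0, 0, 0] 128 := by
  have h0 := ckP_zero QGt8 (6, 0x19120d16110b251e07221d05211b03150f09)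
    [7, 6, 0, 0, 0, 0, 0, 0]
  have h1 := ckP_step (k := 128) h0 kGt9_3c0 rfl
  exact h1

theorem kGt9 : PpI QGt8 1 TGt9 CAGt CBGt 4 := by
  have h0 := ppI_zero QGt8 1 TGt9 CAGt CBGt
  have h1 := ppI_stepV (k' := 1) (q := (4, 0x13110c1917061405030e0b09)) h0 rfl kGt9_0r pGt9_0 kGt9_0m rfl
  have h2 := ppI_stepV (k' := 2) (q := (4, 0x13110a191704011403010e09)) h1 rfl kGt9_1r pGt9_1 kGt9_1m rfl
  have h3 := ppI_stepV (k' := 3) (q := (6, 0x19130c17100b251f06231c05201b03140f09)) h2 rfl kGt9_2r pGt9_2 kGt9_2m rfl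
  have h4 := ppI_stepV (k' := 4) (q := (6, 0x19120d16110b251e07221d05211b03150f09)) h3 rfl kGt9_3r pGt9_3 kGt9_3m rfl
  exact h4

theorem zGt9 : (!true || allK QGt8 (fun _ => true) (nzq CBGt)
  0x101) = true := by decide +kernel

theorem mGt9A : (Nat.ble 2 1 || memI QGt8 5 1 257) = true := by decide +kernel

theorem mGt9B : (Nat.ble 1 1 || memI QGt8 0 1 1) = true := by decide +kernel

/-- **the phase 9** -/
theorem cGt9 : Dj CAGt CBGt true PLGt (dnL QGt9) :=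
  Dj.rawP vokAGt vokBGt mclAGt mclBGt mkoGt wfpGt cGt8 mGt9A mGt9B (by norm_num) tGt9 kGt9 lenGt zGt9 bGt9

end EF18.P80
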