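import Pool.Agent.Lib.MP_ef18bd_co.R80T.C12
import Pool.Agent.Lib.MP_ef18bd_co.R80.JntS

/-!
# The chain is complete
-/

namespace EF18.P80

theorem f13Gt : f13 CAGt = true := by decide +kernel

theorem yGtA : memI QGt12 2 1 1 = true := by decide +kernel

theorem yGtB : memI QGt12 0 2 (9 + 3 * 256 ^ 3) = true := by decide +kernel

/-- **the chain** -/
theorem chainGt : Chj true :=
  ⟨CAGt, CBGt, dnL QGt12, f13Gt, cGt12, memI_of yGtA, memI_of yGtB⟩

end EF18.P80
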